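import Pool.Agent.MP_4f1c5b_al.H1.Defs

/-!
MODULE Rep: character theory of finite groups for matrix representations.
-/

namespace Pool.Agent.MP_4f1c5b_al.H1

open scoped MonoidAlgebra

/-- Schur's lemma (any group). -/
theorem schur {Γ : Type} [Group Γ] {d : ℕ} {ρ : Γ →* Matrix (Fin d) (Fin d) ℂ} (h : Irred ρ)
    {T : Matrix (Fin d) (Fin d) ℂ} (hT : ∀ g, T * ρ g = ρ g * T) :
    ∃ c : ℂ, T = c • (1 : Matrix (Fin d) (Fin d) ℂ) := by
  have : NeZero d := ⟨h.1⟩
  obtain ⟨c, hc⟩ := Module.End.exists_eigenvalue (Matrix.toLin' T)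
  refine ⟨c, ?_⟩
  have hW := h.2 (Module.End.eigenspace (Matrix.toLin' T) c) (fun g w hw => by
    rw [Module.End.mem_eigenspace_iff, Matrix.toLin'_apply] at hw ⊢
    rw [Matrix.mulVec_mulVec, hT, ← Matrix.mulVec_mulVec, hw, Matrix.mulVec_smul])
  rcases hW with hW | hW
  · exact absurd hW hc
  · apply Matrix.toLin'.injective
    refine LinearMap.ext fun w => ?_
    have hw : w ∈ Module.End.eigenspace (Matrix.toLin' T) c := hW ▸ Submodule.mem_top
    rw [Module.End.mem_eigenspace_iff] at hw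
    rw [hw]
    simp

/-- The linear representation attached to a matrix representation. -/
noncomputable def rp_rep {Γ : Type} [Group Γ] {d : ℕ} (ρ : Γ →* Matrix (Fin d) (Fin d) ℂ) :
    Representation ℂ Γ (Fin d → ℂ) :=
  (Matrix.toLinAlgEquiv' (R := ℂ) (n := Fin d)).toMulEquiv.toMonoidHom.comp ρ

theorem rp_rep_apply {Γ : Type} [Group Γ] {d : ℕ} (ρ : Γ →* Matrix (Fin d) (Fin d) ℂ) (g : Γ) :
    rp_rep ρ g = Matrix.toLin' (ρ g) := rfl

theorem rp_char {Γ : Type} [Group Γ] {d : ℕ} (ρ : Γ →* Matrix (Fin d) (Fin d) ℂ) (g : Γ) :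
    (rp_rep ρ).character g = (ρ g).trace := by
  rw [Representation.character, rp_rep_apply, Matrix.trace_toLin'_eq]

theorem rp_irr {Γ : Type} [Group Γ] {d : ℕ} {ρ : Γ →* Matrix (Fin d) (Fin d) ℂ} (h : Irred ρ) :
    (rp_rep ρ).IsIrreducible := by
  have : NeZero d := ⟨h.1⟩
  have hnt : Nontrivial (Subrepresentation (rp_rep ρ)) := ⟨⊥, ⊤, fun he => by
    have h1 : (⊥ : Submodule ℂ (Fin d → ℂ)) = ⊤ := congrArg Subrepresentation.toSubmodule he
    exact bot_ne_top h1⟩
  refine ⟨fun W => ?_⟩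
  rcases h.2 W.toSubmodule (fun g w hw => W.apply_mem_toSubmodule g hw) with h1 | h1
  · exact Or.inl (Subrepresentation.toSubmodule_injective h1)
  · exact Or.inr (Subrepresentation.toSubmodule_injective h1)

theorem rp_orth {Q : Type} [Group Q] [Fintype Q] {d e : ℕ} {ρ : Q →* Matrix (Fin d) (Fin d) ℂ}
    {σ : Q →* Matrix (Fin e) (Fin e) ℂ} (hρ : Irred ρ) (hσ : Irred σ) :
    (∑ g, (ρ g).trace * (σ g⁻¹).trace = 0 ∧ IsEmpty ((rp_rep σ).Equiv (rp_rep ρ))) ∨
      (∑ g, (ρ g).trace * (σ g⁻¹).trace = Nat.card Q ∧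
        Nonempty ((rp_rep σ).Equiv (rp_rep ρ))) := by
  have hc : (Nat.card Q : ℂ) ≠ 0 := Nat.cast_ne_zero.2 Nat.card_pos.ne'
  have := invertibleOfNonzero hc
  have := rp_irr hρ
  have := rp_irr hσ
  have h := Representation.char_orthonormal (rp_rep ρ) (rp_rep σ)
  simp only [rp_char] at h
  rcases isEmpty_or_nonempty ((rp_rep σ).Equiv (rp_rep ρ)) with h1 | h1
  · rw [if_neg (not_nonempty_iff.2 h1)] at h
    exact Or.inl ⟨(mul_eq_zero.1 h).resolve_left (inv_ne_zero hc), h1⟩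
  · rw [if_pos h1, inv_mul_eq_one₀ hc] at h
    exact Or.inr ⟨h.symm, h1⟩

theorem rp_self {Q : Type} [Group Q] [Fintype Q] {d : ℕ} {ρ : Q →* Matrix (Fin d) (Fin d) ℂ}
    (hρ : Irred ρ) : ∑ g, (ρ g).trace * (ρ g⁻¹).trace = Nat.card Q := by
  rcases rp_orth hρ hρ with h | h
  · exact (h.2.false (Representation.Equiv.refl _)).elim
  · exact h.1

/-- Irreducible representations of a finite group with the same character are conjugate. -/
theorem conj_of_trace {Q : Type} [Group Q] [Finite Q] {d : ℕ}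
    {ρ σ : Q →* Matrix (Fin d) (Fin d) ℂ} (hρ : Irred ρ) (hσ : Irred σ)
    (h : ∀ g, (ρ g).trace = (σ g).trace) :
    ∃ P : GL (Fin d) ℂ, ∀ g, σ g = P.1 * ρ g * (P⁻¹).1 := by
  have := Fintype.ofFinite Q
  have hc : (Nat.card Q : ℂ) ≠ 0 := Nat.cast_ne_zero.2 Nat.card_pos.ne'
  rcases rp_orth hσ hρ with h1 | h1
  · exfalso
    have h2 := rp_self hσ
    simp only [h] at h1
    exact hc (h2.symm.trans h1.1)
  · obtain ⟨φ⟩ := h1.2
    let M := LinearMap.toMatrix' φ.toLinearEquiv.toLinearMap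
    let N := LinearMap.toMatrix' φ.toLinearEquiv.symm.toLinearMap
    have hMN : M * N = 1 := by
      rw [← LinearMap.toMatrix'_comp, LinearEquiv.comp_symm, LinearMap.toMatrix'_id]
    have hNM : N * M = 1 := by
      rw [← LinearMap.toMatrix'_comp, LinearEquiv.symm_comp, LinearMap.toMatrix'_id]
    refine ⟨⟨M, N, hMN, hNM⟩, fun g => ?_⟩
    have h3 : M * ρ g = σ g * M := by
      have h4 := congrArg LinearMap.toMatrix' (φ.isIntertwining' g)
      rw [LinearMap.toMatrix'_comp, LinearMap.toMatrix'_comp, rp_rep_apply, rp_rep_apply,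
        LinearMap.toMatrix'_toLin', LinearMap.toMatrix'_toLin'] at h4
      exact h4
    change σ g = M * ρ g * N
    rw [h3, mul_assoc, hMN, mul_one]

/-- The twist of a matrix representation by a character. -/
def rp_tw {Γ : Type} [Group Γ] {d : ℕ} (χ : Γ →* ℂˣ) (ρ : Γ →* Matrix (Fin d) (Fin d) ℂ) :
    Γ →* Matrix (Fin d) (Fin d) ℂ where
  toFun g := (χ g : ℂ) • ρ g
  map_one' := by simp
  map_mul' g h := by simp [smul_smul, mul_comm]

theorem rp_tw_irr {Γ : Type} [Group Γ] {d : ℕ} (χ : Γ →* ℂˣ)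
    {ρ : Γ →* Matrix (Fin d) (Fin d) ℂ} (h : Irred ρ) : Irred (rp_tw χ ρ) := by
  refine ⟨h.1, fun W hW => h.2 W fun g w hw => ?_⟩
  have h1 := hW g w hw
  change ((χ g : ℂ) • ρ g).mulVec w ∈ W at h1
  rw [Matrix.smul_mulVec] at h1
  exact (W.smul_mem_iff (χ g).ne_zero).1 h1

theorem rp_tw_trace {Γ : Type} [Group Γ] {d : ℕ} (χ : Γ →* ℂˣ)
    (ρ : Γ →* Matrix (Fin d) (Fin d) ℂ) (g : Γ) : (rp_tw χ ρ g).trace = χ g * (ρ g).trace := by
  change ((χ g : ℂ) • ρ g).trace = _
  rw [Matrix.trace_smul, smul_eq_mul]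

theorem rp_sum_char_zero {Q : Type} [Group Q] [Finite Q] [Fintype (Q →* ℂˣ)] {g : Q}
    (hg : g ∉ commutator Q) : ∑ χ : Q →* ℂˣ, (χ g : ℂ) = 0 := by
  have h1 : Abelianization.of g ≠ 1 := fun h => hg (by
    rw [← Abelianization.ker_of]; exact h)
  have : NeZero ((Monoid.exponent (Abelianization Q) : ℕ) : ℂ) :=
    ⟨Nat.cast_ne_zero.2 Monoid.exponent_ne_zero_of_finite⟩
  obtain ⟨φ, hφ⟩ :=
    CommGroup.exists_apply_ne_one_of_hasEnoughRootsOfUnity (Abelianization Q) ℂ h1
  let ψ : Q →* ℂˣ := φ.comp Abelianization.of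
  have h2 : ∑ χ : Q →* ℂˣ, ((ψ * χ) g : ℂ) = ∑ χ : Q →* ℂˣ, (χ g : ℂ) :=
    Equiv.sum_comp (Equiv.mulLeft ψ) fun χ : Q →* ℂˣ => (χ g : ℂ)
  simp only [MonoidHom.mul_apply, Units.val_mul, ← Finset.mul_sum] at h2
  have h3 : (ψ g : ℂ) - 1 ≠ 0 := sub_ne_zero.2 fun h => hφ (Units.val_eq_one.1 h)
  refine (mul_eq_zero.1 ?_).resolve_left h3
  rw [sub_mul, one_mul, h2, sub_self]

theorem rp_char_one {Q : Type} [Group Q] (χ : Q →* ℂˣ) {g : Q} (hg : g ∈ commutator Q) :
    χ g = 1 :=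
  Abelianization.commutator_subset_ker χ hg

theorem rp_trace_conj {Q : Type} [Group Q] {d : ℕ} (ρ : Q →* Matrix (Fin d) (Fin d) ℂ) {x y : Q}
    (h : ConjClasses.mk x = ConjClasses.mk y) : (ρ x).trace = (ρ y).trace := by
  obtain ⟨c, rfl⟩ := isConj_iff.1 (ConjClasses.mk_eq_mk_iff_isConj.1 h)
  rw [map_mul, Matrix.trace_mul_comm, ← map_mul, inv_mul_cancel_left]

/-- A class function orthogonal to an irreducible character acts as zero. -/
theorem rp_zero_of_orth {Q : Type} [Group Q] [Fintype Q] {e : ℕ}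
    {σ : Q →* Matrix (Fin e) (Fin e) ℂ} (hσ : Irred σ) {F : Q → ℂ}
    (hF : ∀ g h, F (h * g * h⁻¹) = F g) (h0 : ∑ g, F g * (σ g⁻¹).trace = 0) :
    ∑ g, F g • σ g⁻¹ = 0 := by
  obtain ⟨c, hc⟩ := schur hσ (T := ∑ g, F g • σ g⁻¹) (fun h => by
    rw [Finset.sum_mul, Finset.mul_sum]
    refine (Equiv.sum_comp (MulAut.conj h).toEquiv fun g => F g • σ g⁻¹ * σ h).symm.trans ?_
    refine Finset.sum_congr rfl fun g _ => ?_
    change F (h * g * h⁻¹) • σ (h * g * h⁻¹)⁻¹ * σ h = σ h * F g • σ g⁻¹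
    rw [hF, smul_mul_assoc, mul_smul_comm, ← map_mul, ← map_mul]
    have : (h * g * h⁻¹)⁻¹ * h = h * g⁻¹ := by group
    rw [this])
  have h1 := congrArg Matrix.trace hc
  rw [Matrix.trace_sum] at h1
  simp only [Matrix.trace_smul, smul_eq_mul, Matrix.trace_one, Fintype.card_fin] at h1
  rw [h0] at h1
  have h2 : c = 0 := (mul_eq_zero.1 h1.symm).resolve_right (Nat.cast_ne_zero.2 hσ.1)
  rw [hc, h2, zero_smul]

theorem rp_simple {Q : Type} [Group Q] (M : Type) [AddCommGroup M] [Module ℂ M] [Module ℂ[Q] M]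
    [IsScalarTower ℂ ℂ[Q] M] [FiniteDimensional ℂ M] [IsSimpleModule ℂ[Q] M] :
    ∃ (e : ℕ) (σ : Q →* Matrix (Fin e) (Fin e) ℂ)
      (φ : Module.End ℂ M ≃ₐ[ℂ] Matrix (Fin e) (Fin e) ℂ), Irred σ ∧
        ∀ g, σ g = φ (Algebra.lsmul ℂ ℂ M (MonoidAlgebra.of ℂ Q g)) := by
  have := IsSimpleModule.nontrivial ℂ[Q] M
  let b := Module.finBasis ℂ M
  let φ := LinearMap.toMatrixAlgEquiv b
  let σ : Q →* Matrix (Fin (Module.finrank ℂ M)) (Fin (Module.finrank ℂ M)) ℂ :=
    (φ.toMulEquiv.toMonoidHom.comp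
      (Algebra.lsmul ℂ ℂ M : ℂ[Q] →ₐ[ℂ] Module.End ℂ M).toRingHom.toMonoidHom).comp
      (MonoidAlgebra.of ℂ Q)
  refine ⟨_, σ, φ, ⟨Module.finrank_pos.ne', fun W hW => ?_⟩, fun g => rfl⟩
  let N : Submodule ℂ[Q] M :=
    { carrier := {v | b.equivFun v ∈ W}
      add_mem' := fun {x y} hx hy => by
        change b.equivFun (x + y) ∈ W
        rw [map_add]
        exact W.add_mem hx hy
      zero_mem' := by
        change b.equivFun 0 ∈ W
        rw [map_zero]
        exact W.zero_mem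
      smul_mem' := fun a v hv => by
        change b.equivFun (a • v) ∈ W
        induction a using MonoidAlgebra.induction_on with
        | of g =>
          have h1 := hW g _ hv
          have h2 : (σ g).mulVec (b.equivFun v) =
              b.equivFun (MonoidAlgebra.of ℂ Q g • v) :=
            LinearMap.toMatrix_mulVec_repr b b
              (Algebra.lsmul ℂ ℂ M (MonoidAlgebra.of ℂ Q g)) v
          rwa [h2] at h1
        | add x y hx hy =>
          rw [add_smul, map_add]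
          exact W.add_mem hx hy
        | smul r x hx =>
          rw [smul_assoc, map_smul]
          exact W.smul_mem r hx }
  have hN : ∀ w, w ∈ W ↔ b.equivFun.symm w ∈ N := fun w => by
    change _ ↔ b.equivFun (b.equivFun.symm w) ∈ W
    rw [LinearEquiv.apply_symm_apply]
  rcases eq_bot_or_eq_top N with h | h
  · refine Or.inl (eq_bot_iff.2 fun w hw => ?_)
    rw [hN, h, Submodule.mem_bot] at hw
    exact (Submodule.mem_bot ℂ).2 (b.equivFun.symm.map_eq_zero_iff.1 hw)
  · refine Or.inr (eq_top_iff.2 fun w _ => ?_)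
    rw [hN, h]
    exact Submodule.mem_top

/-- A function whose convolution operator vanishes in all irreducible representations is zero. -/
theorem rp_complete {Q : Type} [Group Q] [Fintype Q] {F : Q → ℂ}
    (h : ∀ (e : ℕ) (σ : Q →* Matrix (Fin e) (Fin e) ℂ), Irred σ → ∑ g, F g • σ g⁻¹ = 0) :
    F = 0 := by
  classical
  have : NeZero (Nat.card Q : ℂ) := ⟨Nat.cast_ne_zero.2 Nat.card_pos.ne'⟩
  let a : ℂ[Q] := ∑ g, F g • MonoidAlgebra.of ℂ Q g⁻¹
  have key : ∀ v : ℂ[Q], v ∈ sSup {m : Submodule ℂ[Q] ℂ[Q] | IsSimpleModule ℂ[Q] m} →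
      a * v = 0 := by
    intro v hv
    rw [sSup_eq_iSup'] at hv
    refine Submodule.iSup_induction _ (motive := fun v => a * v = 0) hv ?_ (mul_zero a)
      fun x y hx hy => by rw [mul_add, hx, hy, add_zero]
    rintro ⟨m, hm⟩ v hv
    have : IsSimpleModule ℂ[Q] m := hm
    have : FiniteDimensional ℂ m :=
      Module.Finite.of_injective (m.subtype.restrictScalars ℂ) m.injective_subtype
    obtain ⟨e, σ, φ, hσ, hφ⟩ := rp_simple (Q := Q) m
    have h1 := h e σ hσ
    have h2 : φ (Algebra.lsmul ℂ ℂ m a) = 0 := by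
      rw [← h1]
      simp only [a, map_sum, map_smul, hφ]
    have h3 : Algebra.lsmul ℂ ℂ m a = 0 := φ.injective (by rw [h2, map_zero])
    have h4 := congrArg (fun f : Module.End ℂ m => ((f ⟨v, hv⟩ : m) : ℂ[Q])) h3
    exact h4
  have ha : a = 0 := by
    have := key 1 (by rw [IsSemisimpleModule.sSup_simples_eq_top]; exact Submodule.mem_top)
    rwa [mul_one] at this
  funext g
  have h5 := congrArg (fun x : ℂ[Q] => x.coeff g⁻¹) ha
  simpa [a, Finsupp.single_apply] using h5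

open Classical in
/-- Extension by zero of a function on the classes inside the derived subgroup. -/
noncomputable def rp_ext {Q : Type} [Group Q]
    (F : {C : ConjClasses Q // ∃ x ∈ commutator Q, ConjClasses.mk x = C} → ℂ) (g : Q) : ℂ :=
  if h : g ∈ commutator Q then F ⟨ConjClasses.mk g, g, h, rfl⟩ else 0

theorem rp_ext_conj {Q : Type} [Group Q]
    (F : {C : ConjClasses Q // ∃ x ∈ commutator Q, ConjClasses.mk x = C} → ℂ) (g h : Q) :
    rp_ext F (h * g * h⁻¹) = rp_ext F g := by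
  unfold rp_ext
  by_cases hg : g ∈ commutator Q
  · have hg' : h * g * h⁻¹ ∈ commutator Q := Subgroup.Normal.conj_mem inferInstance g hg h
    rw [dif_pos hg, dif_pos hg']
    refine congrArg F (Subtype.ext ?_)
    exact (ConjClasses.mk_eq_mk_iff_isConj.2 (isConj_iff.2 ⟨h, rfl⟩)).symm
  · have hg' : h * g * h⁻¹ ∉ commutator Q := fun h' => hg (by
      have := Subgroup.Normal.conj_mem (H := commutator Q) inferInstance _ h' h⁻¹
      simpa [mul_assoc] using this)
    rw [dif_neg hg, dif_neg hg']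

/-- The pairing with a character. -/
noncomputable def rp_pair {Q : Type} [Group Q] [Fintype Q] {d : ℕ}
    (ρ : Q →* Matrix (Fin d) (Fin d) ℂ) :
    ({C : ConjClasses Q // ∃ x ∈ commutator Q, ConjClasses.mk x = C} → ℂ) →ₗ[ℂ] ℂ where
  toFun F := ∑ g, rp_ext F g * (ρ g⁻¹).trace
  map_add' F G := by
    rw [← Finset.sum_add_distrib]
    refine Finset.sum_congr rfl fun g _ => ?_
    unfold rp_ext
    split_ifs <;> simp [add_mul]
  map_smul' c F := by
    rw [RingHom.id_apply, smul_eq_mul, Finset.mul_sum]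
    refine Finset.sum_congr rfl fun g _ => ?_
    unfold rp_ext
    split_ifs <;> simp [mul_assoc]

/-- The character restricted to the classes inside the derived subgroup. -/
noncomputable def rp_res {Q : Type} [Group Q] {d : ℕ} (ρ : Q →* Matrix (Fin d) (Fin d) ℂ)
    (C : {C : ConjClasses Q // ∃ x ∈ commutator Q, ConjClasses.mk x = C}) : ℂ :=
  (ρ C.2.choose).trace

theorem rp_pair_res {Q : Type} [Group Q] [Fintype Q] [Fintype (Q →* ℂˣ)] {d e : ℕ}
    (ρ : Q →* Matrix (Fin d) (Fin d) ℂ) (σ : Q →* Matrix (Fin e) (Fin e) ℂ) :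
    (Fintype.card (Q →* ℂˣ) : ℂ) * rp_pair σ (rp_res ρ) =
      ∑ χ : Q →* ℂˣ, ∑ g, (rp_tw χ ρ g).trace * (σ g⁻¹).trace := by
  rw [Finset.sum_comm]
  change _ * ∑ g, rp_ext (rp_res ρ) g * (σ g⁻¹).trace = _
  rw [Finset.mul_sum]
  refine Finset.sum_congr rfl fun g _ => ?_
  simp only [rp_tw_trace]
  rw [← Finset.sum_mul, ← Finset.sum_mul, ← mul_assoc]
  refine congrArg (· * (σ g⁻¹).trace) ?_
  unfold rp_ext
  by_cases hg : g ∈ commutator Q
  · rw [dif_pos hg]
    have h1 : rp_res ρ ⟨ConjClasses.mk g, g, hg, rfl⟩ = (ρ g).trace :=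
      rp_trace_conj ρ (Exists.choose_spec
        (⟨g, hg, rfl⟩ : ∃ x ∈ commutator Q, ConjClasses.mk x = ConjClasses.mk g)).2
    rw [h1]
    simp [rp_char_one _ hg]
  · rw [dif_neg hg, rp_sum_char_zero hg, mul_zero, zero_mul]

/-- The number of twist classes of irreducible representations of a finite group is the number
of conjugacy classes contained in the derived subgroup. -/
theorem count_twist {Q : Type} [Group Q] [Finite Q] {T : Type} (d : T → ℕ)
    (π : ∀ t, Q →* Matrix (Fin (d t)) (Fin (d t)) ℂ) (hirr : ∀ t, Irred (π t))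
    (hne : ∀ t t' (χ : Q →* ℂˣ), (∀ g, (π t' g).trace = χ g * (π t g).trace) → t = t')
    (hall : ∀ (e : ℕ) (σ : Q →* Matrix (Fin e) (Fin e) ℂ), Irred σ →
      ∃ t, ∀ g ∈ commutator Q, (σ g).trace = (π t g).trace) :
    Finite T ∧
      Nat.card T = Nat.card {C : ConjClasses Q // ∃ x ∈ commutator Q, ConjClasses.mk x = C} := by
  have := Fintype.ofFinite Q
  have := Fintype.ofFinite (Q →* ℂˣ)
  have := Fintype.ofFinite {C : ConjClasses Q // ∃ x ∈ commutator Q, ConjClasses.mk x = C}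
  have hN : (Fintype.card (Q →* ℂˣ) : ℂ) ≠ 0 := Nat.cast_ne_zero.2 Fintype.card_ne_zero
  have hoff : ∀ t t', t ≠ t' → rp_pair (π t') (rp_res (π t)) = 0 := by
    intro t t' htt
    refine (mul_eq_zero.1 ?_).resolve_left hN
    rw [rp_pair_res]
    refine Finset.sum_eq_zero fun χ _ => ?_
    rcases rp_orth (rp_tw_irr χ (hirr t)) (hirr t') with h | h
    · exact h.1
    · obtain ⟨φ⟩ := h.2
      refine absurd (hne t t' χ fun g => ?_) htt
      rw [← rp_tw_trace, ← rp_char, ← rp_char, Representation.char_iso φ]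
  have hdiag : ∀ t, rp_pair (π t) (rp_res (π t)) ≠ 0 := by
    intro t h0
    have h1 := rp_pair_res (π t) (π t)
    rw [h0, mul_zero] at h1
    have h2 := congrArg Complex.re h1
    rw [Complex.re_sum, Complex.zero_re] at h2
    refine (Finset.sum_pos' (fun χ _ => ?_) ⟨1, Finset.mem_univ _, ?_⟩).ne h2
    · rcases rp_orth (rp_tw_irr χ (hirr t)) (hirr t) with h | h
      · rw [h.1, Complex.zero_re]
      · rw [h.1, Complex.natCast_re]
        exact Nat.cast_nonneg _
    · simp only [rp_tw_trace, MonoidHom.one_apply, Units.val_one, one_mul]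
      rw [rp_self (hirr t), Complex.natCast_re]
      exact Nat.cast_pos.2 Nat.card_pos
  have hli : LinearIndependent ℂ fun t => rp_res (π t) := by
    refine LinearIndependent.of_pairwise_dual_eq_zero_one _
      (fun t => (rp_pair (π t) (rp_res (π t)))⁻¹ • rp_pair (π t)) (fun t t' htt => ?_) fun t => ?_
    · simp [hoff t' t htt.symm]
    · simp [hdiag t]
  have hfin : Finite T := hli.finite
  refine ⟨hfin, le_antisymm ?_ ?_⟩
  · have := Fintype.ofFinite T
    have h1 := hli.fintype_card_le_finrank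
    rw [Module.finrank_fintype_fun_eq_card] at h1
    rwa [Nat.card_eq_fintype_card, Nat.card_eq_fintype_card]
  · have := Fintype.ofFinite T
    have hinj : Function.Injective (LinearMap.pi fun t => rp_pair (π t)) := by
      rw [← LinearMap.ker_eq_bot, eq_bot_iff]
      intro F hF
      have hF' : ∀ t, ∑ g, rp_ext F g * (π t g⁻¹).trace = 0 := fun t => congrFun hF t
      have h0 : rp_ext F = 0 := rp_complete fun e σ hσ => by
        obtain ⟨t, ht⟩ := hall e σ hσ
        refine rp_zero_of_orth hσ (rp_ext_conj F) ?_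
        rw [← hF' t]
        refine Finset.sum_congr rfl fun g _ => ?_
        by_cases hg : g ∈ commutator Q
        · rw [ht g⁻¹ (inv_mem hg)]
        · unfold rp_ext
          rw [dif_neg hg, zero_mul, zero_mul]
      rw [Submodule.mem_bot]
      funext ⟨C, x, hx, hC⟩
      subst hC
      have h1 := congrFun h0 x
      unfold rp_ext at h1
      rwa [dif_pos hx] at h1
    have h1 := LinearMap.finrank_le_finrank_of_injective hinj
    rw [Module.finrank_fintype_fun_eq_card, Module.finrank_fintype_fun_eq_card] at h1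
    rwa [Nat.card_eq_fintype_card, Nat.card_eq_fintype_card]

end Pool.Agent.MP_4f1c5b_al.H1
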