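import Pool.Agent.MP_4f1c5b_al.H1.Defs

/-!
MODULE Red: denominators of Denef type and reduction at `X = 1`.
-/

namespace Pool.Agent.MP_4f1c5b_al.H1

open Polynomial

lemma rd_van (Z : RatFunc ℚ) : VanishAtZero Z ↔ ∃ p c : ℚ[X], c.eval 0 ≠ 0 ∧ p.eval 0 = 0 ∧
    Z * algebraMap ℚ[X] (RatFunc ℚ) c = algebraMap ℚ[X] (RatFunc ℚ) p := by
  have hd : Z * algebraMap ℚ[X] (RatFunc ℚ) Z.denom = algebraMap ℚ[X] (RatFunc ℚ) Z.num := by
    have h1 : algebraMap ℚ[X] (RatFunc ℚ) Z.denom ≠ 0 :=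
      RatFunc.algebraMap_ne_zero Z.denom_ne_zero
    rw [← eq_div_iff h1, RatFunc.num_div_denom]
  refine ⟨fun h => ⟨_, _, h.1, h.2, hd⟩, ?_⟩
  rintro ⟨p, c, hc, hp, h⟩
  have h1 : Z.num * c = p * Z.denom := by
    apply RatFunc.algebraMap_injective ℚ
    rw [map_mul, map_mul, ← hd, ← h]; ring
  have h2 : Z.num.eval 0 = 0 := by
    have := congrArg (eval 0) h1
    rw [eval_mul, eval_mul, hp, zero_mul] at this
    exact (mul_eq_zero.1 this).resolve_right hc
  refine ⟨fun h3 => ?_, h2⟩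
  obtain ⟨u, v, huv⟩ := Z.isCoprime_num_denom
  have := congrArg (eval 0) huv
  rw [eval_add, eval_mul, eval_mul, h2, h3] at this
  simp at this

theorem VanishAtZero.sum {r : ℕ} {ρ : Fin r → RatFunc ℚ} (h : ∀ i, VanishAtZero (ρ i))
    (c : Fin r → ℤ) : VanishAtZero (∑ i, c i • ρ i) := by
  refine Finset.sum_induction _ VanishAtZero (fun a b ha hb => ?_) ?_ (fun i _ => ?_)
  · obtain ⟨p, d, h1, h2, h3⟩ := (rd_van _).1 ha
    obtain ⟨p', d', h1', h2', h3'⟩ := (rd_van _).1 hb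
    refine (rd_van _).2 ⟨p * d' + p' * d, d * d', ?_, ?_, ?_⟩
    · rw [eval_mul]; exact mul_ne_zero h1 h1'
    · rw [eval_add, eval_mul, eval_mul, h2, h2']; ring
    · rw [map_add, map_mul, map_mul, map_mul, ← h3, ← h3']; ring
  · exact (rd_van _).2 ⟨0, 1, by simp, by simp, by simp⟩
  · obtain ⟨p, d, h1, h2, h3⟩ := (rd_van _).1 (h i)
    refine (rd_van _).2 ⟨(c i : ℚ[X]) * p, d, h1, by rw [eval_mul, h2, mul_zero], ?_⟩
    rw [map_mul, ← h3, map_intCast, zsmul_eq_mul, mul_assoc]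

/-- A denominator of Denef type stays nonzero at `X = q ≥ 2`. -/
theorem Denef.map_ne {B : ℚ[X][X]} (h : Denef B) {q : ℚ} (hq : 2 ≤ q) :
    B.map (evalRingHom q) ≠ 0 := by
  have hm : ∀ a b, (mon a b).map (evalRingHom q) = C (q ^ a) * X ^ b := fun a b => by
    simp [mon]
  have hq0 : ∀ a, q ^ a ≠ 0 := fun a => pow_ne_zero a (by linarith)
  induction h using Submonoid.closure_induction with
  | mem F hF =>
    obtain ⟨a, b, c, d, rfl | ⟨hne, rfl⟩⟩ := hF
    · rw [hm]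
      exact mul_ne_zero (C_ne_zero.2 (hq0 a)) (pow_ne_zero b X_ne_zero)
    · rw [Polynomial.map_sub, hm, hm, sub_ne_zero]
      intro he
      have := congrArg (fun P => coeff P b) he
      simp only [coeff_C_mul_X_pow, if_true] at this
      split_ifs at this with hbd
      · exact hne (Prod.ext (pow_right_injective₀ (by linarith) (by linarith) this) hbd)
      · exact hq0 a this
  | one => simp
  | mul F G _ _ hF hG => rw [Polynomial.map_mul]; exact mul_ne_zero hF hG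

/-- The series `yser` over the polynomial ring. -/
noncomputable def rd_y : PowerSeries ℚ[X] :=
  PowerSeries.mk fun d => C (d.factorial : ℚ)⁻¹ * (descPochhammer ℚ d).comp (-X)

/-- The substitution over the polynomial ring. -/
noncomputable def rd_E : ℚ[X][X] →+* PowerSeries ℚ[X] :=
  eval₂RingHom (aeval (1 + PowerSeries.X) : ℚ[X] →ₐ[ℚ] PowerSeries ℚ[X]).toRingHom rd_y

lemma rd_yser : yser = PowerSeries.map (algebraMap ℚ[X] (RatFunc ℚ)) rd_y := by
  ext d
  simp only [yser, rd_y, PowerSeries.coeff_map, PowerSeries.coeff_mk]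

lemma rd_ev (F : ℚ[X][X]) : ev F (1 + PowerSeries.X) yser =
    PowerSeries.map (algebraMap ℚ[X] (RatFunc ℚ)) (rd_E F) := by
  rw [rd_E, coe_eval₂RingHom, hom_eval₂, ← rd_yser, ev]
  congr 1
  refine Polynomial.ringHom_ext' (RingHom.ext_rat _ _) ?_
  simp

lemma rd_E_X : rd_E X = rd_y := by simp [rd_E]

lemma rd_E_mon (a b : ℕ) : rd_E (mon a b) = (1 + PowerSeries.X) ^ a * rd_y ^ b := by
  rw [mon, map_mul, map_pow rd_E, rd_E_X, rd_E, coe_eval₂RingHom, eval₂_C]
  simp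

lemma rd_y_const : PowerSeries.constantCoeff rd_y = 1 := by
  rw [← PowerSeries.coeff_zero_eq_constantCoeff_apply]
  simp [rd_y]

lemma rd_y_one : PowerSeries.coeff 1 rd_y = -X := by
  simp [rd_y]

lemma rd_y_zero : PowerSeries.map (evalRingHom (0 : ℚ)) rd_y = 1 := by
  ext d
  simp only [rd_y, PowerSeries.coeff_map, PowerSeries.coeff_mk, PowerSeries.coeff_one,
    coe_evalRingHom, eval_mul, eval_C, eval_comp, eval_neg, eval_X, neg_zero,
    descPochhammer_eval_zero]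
  split_ifs with h
  · simp [h]
  · simp

/-- The leading coefficient of the substitution does not vanish at `s = 0`. -/
def rd_Good (F : ℚ[X][X]) : Prop :=
  ∃ (o : ℕ) (u : PowerSeries ℚ[X]), rd_E F = PowerSeries.X ^ o * u ∧
    (PowerSeries.constantCoeff u).eval 0 ≠ 0

lemma rd_Good_mul {F G : ℚ[X][X]} (hF : rd_Good F) (hG : rd_Good G) : rd_Good (F * G) := by
  obtain ⟨o, u, h1, h2⟩ := hF
  obtain ⟨o', u', h1', h2'⟩ := hG
  refine ⟨o + o', u * u', by rw [map_mul, h1, h1']; ring, ?_⟩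
  rw [map_mul, eval_mul]
  exact mul_ne_zero h2 h2'

lemma rd_Good_of {F : ℚ[X][X]} (h : (PowerSeries.constantCoeff (rd_E F)).eval 0 ≠ 0) :
    rd_Good F := ⟨0, rd_E F, by simp, h⟩

lemma rd_const_mon (a b : ℕ) : PowerSeries.constantCoeff (rd_E (mon a b)) = 1 := by
  simp [rd_E_mon, rd_y_const]

lemma rd_Good_mon (a b : ℕ) : rd_Good (mon a b) := rd_Good_of (by simp [rd_const_mon])

lemma rd_Good_sub {a c : ℕ} (h : a ≠ c) (b d : ℕ) : rd_Good (mon a b - mon c d) := by
  have h0 : PowerSeries.constantCoeff (rd_E (mon a b - mon c d)) = 0 := by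
    rw [map_sub, map_sub, rd_const_mon, rd_const_mon, sub_self]
  obtain ⟨u, hu⟩ := PowerSeries.X_dvd_iff.2 h0
  refine ⟨1, u, by rw [pow_one, hu], ?_⟩
  have h1 : PowerSeries.constantCoeff u = PowerSeries.coeff 1 (rd_E (mon a b - mon c d)) := by
    rw [hu, PowerSeries.coeff_succ_X_mul, PowerSeries.coeff_zero_eq_constantCoeff_apply]
  have h2 : ∀ a b : ℕ, (PowerSeries.coeff 1 (rd_E (mon a b))).eval 0 = a := by
    intro a b
    rw [← coe_evalRingHom, ← PowerSeries.coeff_map, rd_E_mon, map_mul, map_pow, map_pow,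
      rd_y_zero, one_pow, mul_one, PowerSeries.coeff_one_pow]
    simp [PowerSeries.coeff_one]
  rw [h1, map_sub, map_sub, eval_sub, h2, h2, sub_ne_zero]
  exact_mod_cast h

lemma rd_Good_geom (e : ℕ) : rd_Good (∑ i ∈ Finset.range (e + 1), X ^ i) := by
  refine rd_Good_of ?_
  simp only [map_sum, map_pow, rd_E_X, rd_y_const, one_pow, Finset.sum_const, Finset.card_range,
    nsmul_eq_mul, mul_one, eval_natCast]
  exact_mod_cast Nat.succ_ne_zero e

lemma rd_sub_eq (a b e : ℕ) : mon a (b + (e + 1)) - mon a b =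
    (X - 1) ^ 1 * (mon a b * ∑ i ∈ Finset.range (e + 1), X ^ i) := by
  rw [pow_one, mul_left_comm, mul_geom_sum, mon, mon]
  ring

lemma rd_factor {B : ℚ[X][X]} (h : Denef B) : ∃ (t : ℕ) (B0 : ℚ[X][X]),
    B = (X - 1) ^ t * B0 ∧ rd_Good B0 := by
  induction h using Submonoid.closure_induction with
  | mem F hF =>
    obtain ⟨a, b, c, d, rfl | ⟨hne, rfl⟩⟩ := hF
    · exact ⟨0, _, by simp, rd_Good_mon a b⟩
    · by_cases hac : a = c
      · subst hac
        have hbd : b ≠ d := fun h => hne (by rw [h])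
        rcases lt_or_gt_of_ne hbd with h | h
        · obtain ⟨e, rfl⟩ : ∃ e, d = b + (e + 1) := ⟨d - b - 1, by omega⟩
          refine ⟨1, -1 * (mon a b * ∑ i ∈ Finset.range (e + 1), X ^ i), ?_,
            rd_Good_mul (rd_Good_of (by simp)) (rd_Good_mul (rd_Good_mon a b) (rd_Good_geom e))⟩
          rw [mul_left_comm, ← rd_sub_eq]; ring
        · obtain ⟨e, rfl⟩ : ∃ e, b = d + (e + 1) := ⟨b - d - 1, by omega⟩
          exact ⟨1, _, rd_sub_eq a d e, rd_Good_mul (rd_Good_mon a d) (rd_Good_geom e)⟩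
      · exact ⟨0, _, by simp, rd_Good_sub hac b d⟩
  | one => exact ⟨0, 1, by simp, rd_Good_of (by simp)⟩
  | mul F G _ _ hF hG =>
    obtain ⟨t, F0, rfl, h1⟩ := hF
    obtain ⟨t', G0, rfl, h2⟩ := hG
    exact ⟨t + t', F0 * G0, by ring, rd_Good_mul h1 h2⟩

/-- A denominator of Denef type is `(Y - 1) ^ t` times a factor such that every regular quotient
`A / B` with `(Y - 1) ^ (t + 1) ∣ A` has a reduction vanishing at `s = 0`. -/
theorem Denef.exists_pow {B : ℚ[X][X]} (h : Denef B) :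
    ∃ t : ℕ, (X - 1) ^ t ∣ B ∧ ∀ (A : ℚ[X][X]) (ρ : RatFunc ℚ),
      (X - 1) ^ (t + 1) ∣ A → IsRed A B ρ → VanishAtZero ρ := by
  obtain ⟨t, B0, rfl, o, u, hu, hu0⟩ := rd_factor h
  refine ⟨t, dvd_mul_right _ _, ?_⟩
  rintro A ρ ⟨D, rfl⟩ ⟨w, hw, rfl⟩
  have hy : PowerSeries.map (algebraMap ℚ[X] (RatFunc ℚ)) (rd_E (X - 1)) ≠ 0 := by
    intro h0
    have := congrArg (PowerSeries.coeff 1) h0
    rw [PowerSeries.coeff_map, map_sub, map_sub, rd_E_X, rd_y_one, map_one, map_zero,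
      PowerSeries.coeff_one, if_neg one_ne_zero, sub_zero] at this
    exact RatFunc.algebraMap_ne_zero (neg_ne_zero.2 X_ne_zero) this
  have h1 : PowerSeries.map (algebraMap ℚ[X] (RatFunc ℚ)) (rd_E ((X - 1) * D)) =
      PowerSeries.X ^ o * (w * PowerSeries.map (algebraMap ℚ[X] (RatFunc ℚ)) u) := by
    apply mul_left_cancel₀ (pow_ne_zero t hy)
    rw [rd_ev, rd_ev] at hw
    simp only [map_mul, map_pow, hu, PowerSeries.map_X] at hw ⊢
    linear_combination hw
  have h2 := congrArg (PowerSeries.coeff o) h1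
  rw [PowerSeries.coeff_map, PowerSeries.coeff_X_pow_mul', if_pos le_rfl, Nat.sub_self,
    PowerSeries.coeff_zero_eq_constantCoeff_apply] at h2
  refine (rd_van _).2 ⟨PowerSeries.coeff o (rd_E ((X - 1) * D)), _, hu0, ?_, ?_⟩
  · rw [← coe_evalRingHom, ← PowerSeries.coeff_map, map_mul, map_mul, map_sub, map_sub, rd_E_X,
      rd_y_zero, map_one, map_one, sub_self, zero_mul, map_zero]
  · rw [h2, map_mul, ← PowerSeries.coeff_zero_eq_constantCoeff_apply (PowerSeries.map _ u),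
      PowerSeries.coeff_map, PowerSeries.coeff_zero_eq_constantCoeff_apply]

end Pool.Agent.MP_4f1c5b_al.H1
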