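import Pool.Agent.MP_4f1c5b_al.H1.Lev

/-!
The partial sums of the twist representation numbers of a tower tend to zero `p`-adically.
-/

namespace Pool.Agent.MP_4f1c5b_al.H1

lemma exists_aut_of_minpoly {F E : Type} [Field F] [Field E] [Algebra F E] [IsAlgClosed E]
    [CharZero F] {x y : E} (hx : IsIntegral F x) (hy : IsIntegral F y)
    (hxy : minpoly F y = minpoly F x) : ∃ σ : E ≃+* E, σ x = y := by
  let K := algebraicClosure F E
  have hxK : x ∈ K := mem_algebraicClosure_iff'.mpr hx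
  have hyK : y ∈ K := mem_algebraicClosure_iff'.mpr hy
  have hconj : IsConjRoot F (⟨y, hyK⟩ : K) ⟨x, hxK⟩ := by
    rw [← isConjRoot_algHom_iff_of_injective (f := K.val) Subtype.val_injective, isConjRoot_def]
    exact hxy
  obtain ⟨τ, hτ⟩ := hconj.exists_algEquiv
  obtain ⟨s, hs⟩ := exists_isTranscendenceBasis K E
  have := IsAlgClosed.isAlgClosure_of_transcendence_basis _ hs
  let e := hs.1.aevalEquiv
  let S := Algebra.adjoin K (Set.range (Subtype.val : s → E))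
  let φ : S ≃+* S := (e.symm.toRingEquiv.trans (MvPolynomial.mapEquiv s τ.toRingEquiv)).trans
    e.toRingEquiv
  have hφ : ∀ z : K, φ (algebraMap K S z) = algebraMap K S (τ z) := by
    intro z
    have h1 : e.symm (algebraMap K S z) = MvPolynomial.C z := e.symm.commutes z
    have h2 : e (MvPolynomial.C (τ z)) = algebraMap K S (τ z) := e.commutes (τ z)
    change e (MvPolynomial.mapEquiv s τ.toRingEquiv (e.symm (algebraMap K S z))) = _
    rw [h1, ← h2]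
    simp
  refine ⟨IsAlgClosure.equivOfEquiv E E φ, ?_⟩
  have h3 := IsAlgClosure.equivOfEquiv_algebraMap E E φ (algebraMap K S ⟨x, hxK⟩)
  rw [hφ, hτ] at h3
  exact h3

lemma exists_aut_pow {p : ℕ} (hp : p.Prime) (E : ℕ) :
    ∃ σ : ℂ ≃+* ℂ, ∀ x : ℂ, x ^ p ^ E = 1 → σ x = x ^ (1 + p) := by
  have hN : 0 < p ^ E := pow_pos hp.pos _
  have hζ := Complex.isPrimitiveRoot_exp (p ^ E) hN.ne'
  have hco : (1 + p).Coprime (p ^ E) := Nat.Coprime.pow_right _ (by simp)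
  have hy := hζ.pow_of_coprime _ hco
  obtain ⟨σ, hσ⟩ := exists_aut_of_minpoly (F := ℚ) (hζ.isIntegral hN).tower_top
    (hy.isIntegral hN).tower_top (by
      rw [← Polynomial.cyclotomic_eq_minpoly_rat hζ hN,
        ← Polynomial.cyclotomic_eq_minpoly_rat hy hN])
  refine ⟨σ, fun x hx => ?_⟩
  have : NeZero (p ^ E) := ⟨hN.ne'⟩
  obtain ⟨i, -, rfl⟩ := hζ.eq_pow_of_pow_eq_one hx
  rw [map_pow, hσ, ← pow_mul, ← pow_mul, mul_comm i]

lemma aut_pow_apply {p E : ℕ} {σ : ℂ ≃+* ℂ} (hσ : ∀ x : ℂ, x ^ p ^ E = 1 → σ x = x ^ (1 + p))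
    (k : ℕ) {x : ℂ} (hx : x ^ p ^ E = 1) : (σ ^ k) x = x ^ (1 + p) ^ k := by
  induction k with
  | zero => simp
  | succ k ih =>
    rw [pow_succ', RingAut.mul_apply, ih, map_pow, hσ x hx, ← pow_mul, pow_succ']

lemma trace_fixed {d k : ℕ} (σ : ℂ ≃+* ℂ) (hσ : ∀ x : ℂ, x ^ k = 1 → σ x = x)
    {A : Matrix (Fin d) (Fin d) ℂ} (hA : A ^ k = 1) : σ A.trace = A.trace := by
  rw [Matrix.trace_eq_sum_roots_charpoly, map_multiset_sum]
  congr 1
  conv_rhs => rw [← Multiset.map_id A.charpoly.roots]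
  refine Multiset.map_congr rfl fun x hx => hσ x ?_
  have h1 := Matrix.mem_spectrum_iff_isRoot_charpoly.2 (Polynomial.isRoot_of_mem_roots hx)
  have h2 := spectrum.pow_mem_pow A k h1
  rw [hA] at h2
  by_contra hne
  rw [spectrum.mem_iff] at h2
  apply h2
  have : algebraMap ℂ (Matrix (Fin d) (Fin d) ℂ) (x ^ k) - 1 =
      algebraMap ℂ (Matrix (Fin d) (Fin d) ℂ) (x ^ k - 1) := by simp
  rw [this]
  exact (IsUnit.mk0 _ (sub_ne_zero.2 hne)).map _

/-- The conjugate of a representation by a field automorphism. -/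
noncomputable def cj {G : Type} [Group G] {d : ℕ} (σ : ℂ ≃+* ℂ)
    (ρ : G →* Matrix (Fin d) (Fin d) ℂ) : G →* Matrix (Fin d) (Fin d) ℂ :=
  (σ.toRingHom.mapMatrix : Matrix (Fin d) (Fin d) ℂ →+* Matrix (Fin d) (Fin d) ℂ).toMonoidHom.comp ρ

lemma cj_apply {G : Type} [Group G] {d : ℕ} (σ : ℂ ≃+* ℂ) (ρ : G →* Matrix (Fin d) (Fin d) ℂ)
    (g : G) : cj σ ρ g = (ρ g).map σ := rfl

lemma Irred.cj {G : Type} [Group G] {d : ℕ} {ρ : G →* Matrix (Fin d) (Fin d) ℂ} (h : Irred ρ)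
    (σ : ℂ ≃+* ℂ) : Irred (cj σ ρ) := by
  refine ⟨h.1, fun W hW => ?_⟩
  let W' : Submodule ℂ (Fin d → ℂ) :=
    { carrier := {v | (fun i => σ (v i)) ∈ W}
      add_mem' := fun {a b} ha hb => by
        have := W.add_mem ha hb
        simpa [Pi.add_def] using this
      zero_mem' := by simp [← Pi.zero_def]
      smul_mem' := fun c v hv => by
        have := W.smul_mem (σ c) hv
        simpa [Pi.smul_def] using this }
  have h1 := h.2 W' (fun g w hw => by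
    have := hW g _ hw
    change (fun i => σ (((ρ g).mulVec w) i)) ∈ W
    have e : (fun i => σ (((ρ g).mulVec w) i)) = ((ρ g).map σ).mulVec (fun i => σ (w i)) := by
      funext i
      simp [Matrix.mulVec, dotProduct]
    rw [e]
    exact this)
  have h2 : ∀ v, v ∈ W ↔ (fun i => σ.symm (v i)) ∈ W' := fun v => by
    change _ ↔ (fun i => σ (σ.symm (v i))) ∈ W
    simp
  rcases h1 with h1 | h1
  · left
    refine eq_bot_iff.2 fun v hv => ?_
    rw [h2, h1, Submodule.mem_bot] at hv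
    rw [Submodule.mem_bot]
    funext i
    simpa using congrFun hv i
  · right
    exact eq_top_iff.2 fun v _ => (h2 v).2 (h1 ▸ Submodule.mem_top)

variable {Γ : Type} [Group Γ] [TopologicalSpace Γ] {p : ℕ} {N : ℕ → Subgroup Γ}

/-- Galois conjugation of continuous irreducible representations. -/
noncomputable def Tower.act (T : Tower Γ p N) (σ : ℂ ≃+* ℂ) {d : ℕ} (a : Irr Γ d) : Irr Γ d :=
  ⟨cj σ a.1, by
    obtain ⟨m, hm⟩ := T.lev a
    exact T.cont _ (m := m) fun g hg => by rw [cj_apply, hm g hg]; simp, a.2.2.cj σ⟩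

lemma Tower.act_twist (T : Tower Γ p N) (σ : ℂ ≃+* ℂ) {d : ℕ} {a b : Irr Γ d} (h : Twist a b) :
    Twist (T.act σ a) (T.act σ b) := by
  obtain ⟨χ, P, hχ, h⟩ := h
  obtain ⟨m, hm⟩ := T.levChar χ hχ
  let F : Matrix (Fin d) (Fin d) ℂ →+* Matrix (Fin d) (Fin d) ℂ := σ.toRingHom.mapMatrix
  refine ⟨(Units.map σ.toRingHom.toMonoidHom).comp χ, Units.map F.toMonoidHom P,
    T.cont _ (m := m) fun g hg => by simp [hm g hg], fun g => ?_⟩
  change F (b.1 g) = σ (χ g) • (F P.1 * F (a.1 g) * F (P⁻¹).1)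
  rw [h, ← map_mul, ← map_mul]
  generalize P.1 * a.1 g * (P⁻¹).1 = Y
  ext i j
  simp [F]

/-- Galois conjugation of twist classes. -/
noncomputable def Tower.actQ (T : Tower Γ p N) (σ : ℂ ≃+* ℂ) (d : ℕ) :
    Quot (Twist (Γ := Γ) (d := d)) → Quot (Twist (Γ := Γ) (d := d)) :=
  Quot.map (T.act σ) fun _ _ h => T.act_twist σ h

lemma Tower.act_iter (T : Tower Γ p N) (σ : ℂ ≃+* ℂ) {d : ℕ} (k : ℕ) (a : Irr Γ d) :
    (T.actQ σ d)^[k] (Quot.mk Twist a) =
      Quot.mk Twist (T.act (σ ^ k) a) := by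
  induction k with
  | zero =>
    refine congrArg (Quot.mk Twist) (Subtype.ext (MonoidHom.ext fun g => ?_))
    ext i j
    rfl
  | succ k ih =>
    rw [Function.iterate_succ_apply', ih]
    refine congrArg (Quot.mk Twist) (Subtype.ext (MonoidHom.ext fun g => ?_))
    ext i j
    rw [pow_succ']
    rfl

lemma Tower.conj (T : Tower Γ p N) {d m : ℕ} {ρ σ : Γ →* Matrix (Fin d) (Fin d) ℂ} (hρ : Irred ρ)
    (hσ : Irred σ) (h1 : ∀ g ∈ N m, ρ g = 1) (h2 : ∀ g ∈ N m, σ g = 1)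
    (h : ∀ g, (ρ g).trace = (σ g).trace) :
    ∃ P : GL (Fin d) ℂ, ∀ g, σ g = P.1 * ρ g * (P⁻¹).1 := by
  have := T.normal m
  have := T.fin m
  obtain ⟨P, hP⟩ := conj_of_trace (ρ := QuotientGroup.lift (N m) ρ h1)
    (σ := QuotientGroup.lift (N m) σ h2) (Irred.of_comp (QuotientGroup.mk' _) hρ)
    (Irred.of_comp (QuotientGroup.mk' _) hσ) (fun g => by
      obtain ⟨x, rfl⟩ := QuotientGroup.mk_surjective g
      exact h x)
  exact ⟨P, fun g => hP (g : Γ ⧸ N m)⟩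

lemma Twist.trace {d : ℕ} {a b : Irr Γ d} (h : Twist a b) {g : Γ} (hg : g ∈ commutator Γ) :
    (b.1 g).trace = (a.1 g).trace := by
  obtain ⟨χ, P, -, h⟩ := h
  have h1 : χ g = 1 := Abelianization.commutator_subset_ker χ hg
  rw [h, h1, Units.val_one, one_smul, Matrix.trace_mul_cycle, Units.inv_mul, one_mul]

lemma Tower.count (T : Tower Γ p N) (m : ℕ) [(N m).Normal] :
    Finite (Σ d : ℕ, {τ : Quot (Twist (Γ := Γ) (d := d)) // Lev N m τ}) ∧
      Nat.card (Σ d : ℕ, {τ : Quot (Twist (Γ := Γ) (d := d)) // Lev N m τ}) =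
        Nat.card {C : ConjClasses (Γ ⧸ N m) //
          ∃ x ∈ commutator (Γ ⧸ N m), ConjClasses.mk x = C} := by
  have := T.fin m
  have hs := QuotientGroup.mk'_surjective (N m)
  choose rep hrep hlev using
    fun t : (Σ d : ℕ, {τ : Quot (Twist (Γ := Γ) (d := d)) // Lev N m τ}) => t.2.2
  refine count_twist (fun t => t.1) (fun t => QuotientGroup.lift (N m) (rep t).1 (hlev t))
    (fun t => Irred.of_comp (QuotientGroup.mk' _) (rep t).2.2) ?_ ?_
  · rintro ⟨d, τ⟩ ⟨d', τ'⟩ χ h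
    obtain rfl : d = d' := by
      have := h 1
      simpa using this.symm
    let χ' := χ.comp (QuotientGroup.mk' (N m))
    have hχ : ∀ g ∈ N m, χ' g = 1 := fun g hg => by
      simp [χ', (QuotientGroup.eq_one_iff g).2 hg]
    obtain ⟨P, hP⟩ := T.conj ((rep ⟨d, τ⟩).2.2.tw χ') (rep ⟨d, τ'⟩).2.2 (m := m)
      (fun g hg => by
        change (χ' g : ℂ) • (rep ⟨d, τ⟩).1 g = 1
        rw [hχ g hg, hlev _ g hg]
        simp) (hlev _) (fun g => by
        change ((χ' g : ℂ) • (rep ⟨d, τ⟩).1 g).trace = _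
        rw [Matrix.trace_smul]
        exact (h (g : Γ ⧸ N m)).symm)
    have h2 : Twist (rep ⟨d, τ⟩) (rep ⟨d, τ'⟩) :=
      ⟨χ', P, T.cont _ hχ, fun g => by rw [hP]; simp [tw]⟩
    have h3 := twist_iff.2 h2
    exact congrArg _ (Subtype.ext ((hrep ⟨d, τ⟩).symm.trans (h3.trans (hrep ⟨d, τ'⟩))))
  · intro e σ hσ
    have h1 : ∀ g ∈ N m, σ.comp (QuotientGroup.mk' (N m)) g = 1 := fun g hg => by
      simp [(QuotientGroup.eq_one_iff g).2 hg]
    let a : Irr Γ e := ⟨σ.comp (QuotientGroup.mk' (N m)), T.cont _ h1, hσ.comp _ hs⟩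
    refine ⟨⟨e, Quot.mk _ a, a, rfl, h1⟩, fun g hg => ?_⟩
    rw [← comm_of_surj _ hs] at hg
    obtain ⟨x, hx, rfl⟩ := hg
    exact (twist_iff.1 (hrep ⟨e, Quot.mk _ a, a, rfl, h1⟩)).trace hx

lemma scalar_pow {d m E : ℕ} (hE : ∀ g : Γ, g ^ p ^ E ∈ N m) (a : Irr Γ d)
    (ha : ∀ g ∈ N m, a.1 g = 1) {z : Γ} {c : ℂ}
    (hc : a.1 z = c • (1 : Matrix (Fin d) (Fin d) ℂ)) : c ^ p ^ E = 1 := by
  have h1 := ha _ (hE z)
  rw [map_pow, hc, smul_pow, one_pow] at h1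
  let i0 : Fin d := ⟨0, Nat.pos_of_ne_zero a.2.2.1⟩
  simpa using congrFun (congrFun h1 i0) i0

lemma Tower.all_lev (T : Tower Γ p N) (hp : p.Prime) (d : ℕ) :
    ∃ m, ∀ τ : Quot (Twist (Γ := Γ) (d := d)), Lev N m τ := by
  rcases eq_or_ne d 0 with rfl | hd
  · exact ⟨0, fun τ => Quot.inductionOn τ fun a => absurd rfl a.2.2.1⟩
  obtain ⟨v, hv⟩ := exists_ppart hp hd
  obtain ⟨m0, hm0⟩ := T.reduce v
  refine ⟨m0, fun τ => Quot.inductionOn τ fun a => hm0 d a fun z hz c hc => ?_⟩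
  obtain ⟨m, hm⟩ := T.lev a
  obtain ⟨E, hE⟩ := T.pw m
  refine hv ℂ c E (scalar_pow hE a hm hc) ?_
  have h1 := Abelianization.commutator_subset_ker
    ((Matrix.detMonoidHom.comp a.1).toHomUnits) hz
  have h2 : (a.1 z).det = 1 := congrArg Units.val h1
  simpa [hc] using h2

lemma Tower.dvd_rest (T : Tower Γ p N) (hp : p.Prime) (M : ℕ) : ∃ m0, ∀ m, m0 ≤ m → ∀ d : ℕ,
    Finite (Quot (Twist (Γ := Γ) (d := d))) ∧
      p ^ (M + 1) ∣ {τ : Quot (Twist (Γ := Γ) (d := d)) | ¬ Lev N m τ}.ncard := by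
  have hw1 : 1 < (1 + p) ^ p ^ M :=
    Nat.one_lt_pow (pow_pos hp.pos _).ne' (by have := hp.pos; omega)
  obtain ⟨w, hw⟩ : ∃ w, (1 + p) ^ p ^ M = w + 1 := ⟨(1 + p) ^ p ^ M - 1, by omega⟩
  have hw0 : w ≠ 0 := by omega
  obtain ⟨v, hv⟩ := exists_ppart hp hw0
  obtain ⟨m0, hm0⟩ := T.reduce v
  refine ⟨m0, fun m hm d => ?_⟩
  obtain ⟨m1, hm1⟩ := T.all_lev hp d
  have := T.normal m1
  have hfin : Finite (Quot (Twist (Γ := Γ) (d := d))) := by
    have := (T.count m1).1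
    refine Finite.of_injective (β := Σ d : ℕ, {τ : Quot (Twist (Γ := Γ) (d := d)) // Lev N m1 τ})
      (fun τ => ⟨d, τ, hm1 τ⟩) fun a b h => ?_
    simpa using h
  refine ⟨hfin, ?_⟩
  obtain ⟨E, hE⟩ := T.pw m1
  obtain ⟨σ, hσ⟩ := exists_aut_pow hp E
  let f := T.actQ σ d
  have hlev : ∀ (k m : ℕ) (a : Irr Γ d), (∀ g ∈ N m, a.1 g = 1) →
      ∀ g ∈ N m, (T.act (σ ^ k) a).1 g = 1 := by
    intro k m a ha g hg
    change (a.1 g).map _ = 1
    rw [ha g hg]
    simp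
  have hper : ∀ τ, f^[p ^ E] τ = τ := by
    intro τ
    obtain ⟨a, rfl, ha⟩ := hm1 τ
    rw [T.act_iter]
    obtain ⟨P, hP⟩ := T.conj (T.act (σ ^ p ^ E) a).2.2 a.2.2 (hlev _ _ a ha) ha (fun g => by
      have h1 : (a.1 g) ^ p ^ E = 1 := by rw [← map_pow, ha _ (hE g)]
      rw [← trace_fixed (σ ^ p ^ E) (fun x hx => by
        rw [aut_pow_apply hσ _ hx, pow_pow_self hx]) h1]
      change ((a.1 g).map _).trace = _
      simp [Matrix.trace])
    exact twist_iff.2 ⟨1, P, continuous_const, fun g => by simpa using hP g⟩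
  refine orb hp f M _ (Set.toFinite _) ?_ (fun τ _ => ⟨E, hper τ⟩) ?_
  · intro τ hτ hh
    apply hτ
    obtain ⟨a, ha, ha'⟩ := hh
    obtain ⟨k, hk⟩ := Nat.exists_eq_succ_of_ne_zero (pow_pos hp.pos E).ne'
    rw [← hper τ, hk, Function.iterate_succ_apply, ← ha, T.act_iter]
    exact ⟨_, rfl, hlev _ _ a ha'⟩
  · intro τ hτ hh
    apply hτ
    obtain ⟨a, rfl, ha⟩ := hm1 τ
    rw [T.act_iter] at hh
    refine T.lev_mono hm (hm0 d a fun z hz c hc => ?_)
    have h1 := scalar_pow hE a ha hc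
    have h2 := (twist_iff.1 hh).trace hz
    change _ = ((a.1 z).map _).trace at h2
    have hd : (d : ℂ) ≠ 0 := Nat.cast_ne_zero.2 a.2.2.1
    have h3 : c = (σ ^ p ^ M) c := by
      rw [hc] at h2
      simpa [Matrix.trace, hd] using h2
    rw [aut_pow_apply hσ _ h1, hw, pow_succ] at h3
    have hc0 : c ≠ 0 := by
      rintro rfl
      rw [zero_pow (pow_pos hp.pos E).ne'] at h1
      exact zero_ne_one h1
    exact hv ℂ c E h1 (mul_right_cancel₀ hc0 (h3.symm.trans (one_mul c).symm))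

theorem Tower.rt_zero (Γ : Type) [Group Γ] [TopologicalSpace Γ] : rt Γ 0 = 0 := by
  have : IsEmpty (Quot (Twist (Γ := Γ) (d := 0))) :=
    ⟨fun τ => Quot.inductionOn τ fun a => absurd rfl a.2.2.1⟩
  simp [rt]

theorem Tower.dvd_sum (T : Tower Γ p N) (hp : p.Prime) (M : ℕ) :
    ∃ D0 : ℕ, ∀ D, D0 ≤ D → p ^ M ∣ ∑ d ∈ Finset.range D, rt Γ d := by
  obtain ⟨c, hc⟩ := T.nil.nilpotent'
  obtain ⟨e, he⟩ := dvd_classes hp c M
  obtain ⟨z, hz, hz', hz''⟩ := T.cen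
  obtain ⟨m1, hm1⟩ := hz'' e
  obtain ⟨m0, hm0⟩ := T.dvd_rest hp M
  set m := max m0 m1
  have := T.normal m
  have := T.fin m
  have hs := QuotientGroup.mk'_surjective (N m)
  obtain ⟨E, hE⟩ := T.pw m
  obtain ⟨hfin, hcard⟩ := T.count m
  have h1 := he (Γ ⧸ N m) E z (upper_of_surj hc _ hs) (fun g => by
      obtain ⟨x, rfl⟩ := QuotientGroup.mk_surjective g
      exact (QuotientGroup.eq_one_iff _).2 (hE x))
    (Subgroup.mem_center_iff.2 fun g => by
      obtain ⟨x, rfl⟩ := QuotientGroup.mk_surjective g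
      rw [← QuotientGroup.mk_mul, Subgroup.mem_center_iff.1 hz x, QuotientGroup.mk_mul])
    (comm_of_surj _ hs ▸ Subgroup.mem_map_of_mem (QuotientGroup.mk' (N m)) hz')
    (fun h => hm1 (T.anti (le_max_right _ _) ((QuotientGroup.eq_one_iff _).1 h)))
  rw [← hcard] at h1
  obtain ⟨D0, hD0⟩ := (Set.finite_range fun t :
    (Σ d : ℕ, {τ : Quot (Twist (Γ := Γ) (d := d)) // Lev N m τ}) => t.1).bddAbove
  refine ⟨D0 + 1, fun D hD => (pow_dvd_pow p (Nat.le_succ M)).trans ?_⟩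
  have h2 : ∀ d, rt Γ d = {τ : Quot (Twist (Γ := Γ) (d := d)) | ¬ Lev N m τ}.ncard +
      Nat.card {τ : Quot (Twist (Γ := Γ) (d := d)) // Lev N m τ} := by
    intro d
    have := (hm0 m (le_max_left _ _) d).1
    have h3 := Set.ncard_add_ncard_compl {τ : Quot (Twist (Γ := Γ) (d := d)) | Lev N m τ}
    rw [rt, ← h3, add_comm]
    rfl
  have h3 : Nat.card (Σ d : ℕ, {τ : Quot (Twist (Γ := Γ) (d := d)) // Lev N m τ}) =
      ∑ d ∈ Finset.range D, Nat.card {τ : Quot (Twist (Γ := Γ) (d := d)) // Lev N m τ} := by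
    have := Fintype.ofFinite (Σ d : ℕ, {τ : Quot (Twist (Γ := Γ) (d := d)) // Lev N m τ})
    rw [Nat.card_eq_fintype_card, ← Finset.card_univ,
      Finset.card_eq_sum_card_fiberwise (f := fun t => t.1) (t := Finset.range D)
        (fun t _ => by
          have : t.1 ≤ D0 := hD0 ⟨t, rfl⟩
          simp only [Finset.coe_range, Set.mem_Iio]
          omega)]
    refine Finset.sum_congr rfl fun d _ => ?_
    rw [← Nat.card_congr (Equiv.sigmaSubtype
      (β := fun d => {τ : Quot (Twist (Γ := Γ) (d := d)) // Lev N m τ}) d), Nat.card_eq_fintype_card, Fintype.card_subtype]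
  simp_rw [h2]
  rw [Finset.sum_add_distrib, ← h3]
  exact dvd_add (Finset.dvd_sum fun d _ => (hm0 m (le_max_left _ _) d).2) h1

end Pool.Agent.MP_4f1c5b_al.H1
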