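import Pool.Agent.MP_4f1c5b_al.H1.Tower

/-!
Orbit counting modulo powers of `p`, and conjugacy classes inside the derived subgroup.
-/

namespace Pool.Agent.MP_4f1c5b_al.H1

open Function
open scoped commutatorElement

/-- A finite set with a self-map all of whose points have exact period divisible by `n`. -/
lemma dvd_card_of_period {X : Type} (f : X → X) (n : ℕ) :
    ∀ (k : ℕ) (S : Set X), S.Finite → S.ncard = k → (∀ x ∈ S, f x ∈ S) →
      (∀ x ∈ S, x ∈ periodicPts f) → (∀ x ∈ S, n ∣ minimalPeriod f x) → n ∣ S.ncard := by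
  intro k
  induction k using Nat.strong_induction_on with
  | _ k ih =>
    intro S hS hk hm hper hd
    rcases S.eq_empty_or_nonempty with rfl | ⟨x, hx⟩
    · simp
    have hit : ∀ i, ∀ y ∈ S, f^[i] y ∈ S := by
      intro i
      induction i with
      | zero => intro y hy; simpa using hy
      | succ i h => intro y hy; rw [iterate_succ_apply']; exact hm _ (h y hy)
    set O : Set X := (fun i => f^[i] x) '' (Set.Iio (minimalPeriod f x)) with hO
    have hOS : O ⊆ S := by rintro _ ⟨i, -, rfl⟩; exact hit i x hx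
    have hpos : 0 < minimalPeriod f x := minimalPeriod_pos_of_mem_periodicPts (hper x hx)
    have hOc : O.ncard = minimalPeriod f x := by
      rw [hO, Set.InjOn.ncard_image (iterate_injOn_Iio_minimalPeriod)]
      simp
    have hmem : ∀ i, f^[i] x ∈ O := fun i =>
      ⟨i % minimalPeriod f x, Nat.mod_lt _ hpos, iterate_mod_minimalPeriod_eq⟩
    have hdiff : (S \ O).ncard + O.ncard = S.ncard := Set.ncard_sdiff_add_ncard_of_subset hOS hS
    have h1 : n ∣ (S \ O).ncard := by
      refine ih _ (by omega) _ (hS.subset Set.sdiff_subset) rfl ?_ (fun y hy => hper y hy.1)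
        (fun y hy => hd y hy.1)
      rintro y ⟨hy, hyO⟩
      refine ⟨hm y hy, fun ⟨i, _, hi⟩ => hyO ?_⟩
      obtain ⟨m, hm0, hm1⟩ := hper y hy
      obtain ⟨m, rfl⟩ := Nat.exists_eq_succ_of_ne_zero hm0.ne'
      have : y = f^[m + i] x := by
        rw [iterate_add_apply]
        have h2 : f^[i] x = f y := hi
        rw [h2, ← iterate_succ_apply]
        exact hm1.eq.symm
      rw [this]
      exact hmem _
    rw [← hdiff, hOc]
    exact dvd_add h1 (hd x hx)

lemma orb {X : Type} {p : ℕ} (hp : p.Prime) (f : X → X) (M : ℕ) (S : Set X) (hS : S.Finite)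
    (hm : ∀ x ∈ S, f x ∈ S) (hper : ∀ x ∈ S, ∃ j, f^[p ^ j] x = x)
    (hn : ∀ x ∈ S, f^[p ^ M] x ≠ x) : p ^ (M + 1) ∣ S.ncard := by
  refine dvd_card_of_period f _ _ S hS rfl hm (fun x hx => ?_) (fun x hx => ?_)
  · obtain ⟨j, hj⟩ := hper x hx
    exact ⟨p ^ j, pow_pos hp.pos _, hj⟩
  · obtain ⟨j, hj⟩ := hper x hx
    have h1 : minimalPeriod f x ∣ p ^ j := (IsPeriodicPt.minimalPeriod_dvd hj)
    obtain ⟨i, -, hi⟩ := (Nat.dvd_prime_pow hp).1 h1
    rw [hi]
    refine pow_dvd_pow _ ?_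
    by_contra hlt
    apply hn x hx
    have : minimalPeriod f x ∣ p ^ M := by rw [hi]; exact pow_dvd_pow _ (by omega)
    exact isPeriodicPt_iff_minimalPeriod_dvd.2 this

/-- Powers of `1 + p` converge to one. -/
lemma one_add_pow_modEq (p E : ℕ) : (1 + p) ^ p ^ E ≡ 1 [MOD p ^ E] := by
  have h : ∀ E : ℕ, ∃ c, (1 + p) ^ p ^ E = 1 + c * p ^ (E + 1) := by
    intro E
    induction E with
    | zero => exact ⟨1, by simp⟩
    | succ E ih =>
      obtain ⟨c, hc⟩ := ih
      have h2 : ∀ k : ℕ, ∃ a, (1 + c * p ^ (E + 1)) ^ k =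
          1 + k * c * p ^ (E + 1) + a * p ^ (E + 2) := by
        intro k
        induction k with
        | zero => exact ⟨0, by simp⟩
        | succ k ih =>
          obtain ⟨a, ha⟩ := ih
          refine ⟨a + k * c * c * p ^ E + a * c * p ^ (E + 1), ?_⟩
          rw [pow_succ, ha]
          ring
      obtain ⟨a, ha⟩ := h2 p
      exact ⟨c + a, by rw [pow_succ p E, pow_mul, hc, ha]; ring⟩
  obtain ⟨c, hc⟩ := h E
  rw [hc]
  have : p ^ E ∣ c * p ^ (E + 1) := Dvd.dvd.mul_left (pow_dvd_pow _ (Nat.le_succ E)) c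
  simpa using (Nat.ModEq.refl 1).add ((Nat.modEq_zero_iff_dvd).2 this)

lemma pow_pow_self {G : Type} [Monoid G] {p E : ℕ} {x : G} (h : x ^ p ^ E = 1) :
    x ^ (1 + p) ^ p ^ E = x := by
  have h1 := one_add_pow_modEq p E
  have h2 : 1 ≤ (1 + p) ^ p ^ E := Nat.one_le_pow _ _ (by omega)
  obtain ⟨c, hc⟩ := (Nat.modEq_iff_dvd' h2).1 h1.symm
  have : (1 + p) ^ p ^ E = 1 + p ^ E * c := by omega
  rw [this, pow_add, pow_mul, h]
  simp

/-- For nonzero `w` there is `v` such that `p`-power torsion killed by `w` is killed by `p ^ v`. -/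
lemma exists_ppart {p : ℕ} (hp : p.Prime) {w : ℕ} (hw : w ≠ 0) :
    ∃ v : ℕ, ∀ (G : Type) [Monoid G] (x : G) (E : ℕ), x ^ p ^ E = 1 → x ^ w = 1 →
      x ^ p ^ v = 1 := by
  refine ⟨w, fun G _ x E h1 h2 => ?_⟩
  have a1 : orderOf x ∣ p ^ E := orderOf_dvd_of_pow_eq_one h1
  have a2 : orderOf x ∣ w := orderOf_dvd_of_pow_eq_one h2
  obtain ⟨i, -, hi⟩ := (Nat.dvd_prime_pow hp).1 a1
  have : i ≤ w := by
    have b1 := Nat.le_of_dvd (Nat.pos_of_ne_zero hw) a2
    have b2 : i < p ^ i := Nat.lt_pow_self hp.one_lt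
    omega
  exact orderOf_dvd_iff_pow_eq_one.1 (hi ▸ pow_dvd_pow _ this)

lemma comm_pow {G : Type} [Group G] {x g : G} (h : ⁅x, g⁆ ∈ Subgroup.center G) (k : ℕ) :
    ⁅x ^ k, g⁆ = ⁅x, g⁆ ^ k := by
  induction k with
  | zero => simp
  | succ k ih =>
    have h1 : ⁅x ^ (k + 1), g⁆ = x * ⁅x ^ k, g⁆ * x⁻¹ * ⁅x, g⁆ := by
      simp only [commutatorElement_def, pow_succ']
      group
    have h2 : x * ⁅x, g⁆ ^ k = ⁅x, g⁆ ^ k * x :=
      Subgroup.mem_center_iff.1 (Subgroup.pow_mem _ h k) x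
    rw [h1, ih, h2, pow_succ]
    group

/-- If central elements of the derived subgroup are killed by `k`, the derived subgroup is killed
by `k ^ c`. -/
lemma exponent_comm {G : Type} [Group G] {k c : ℕ} (hc : Subgroup.upperCentralSeries G c = ⊤)
    (h : ∀ z ∈ Subgroup.center G, z ∈ commutator G → z ^ k = 1) :
    ∀ x ∈ commutator G, x ^ k ^ c = 1 := by
  have H : ∀ i, ∀ y ∈ Subgroup.upperCentralSeries G (i + 1), y ∈ commutator G →
      y ^ k ∈ Subgroup.upperCentralSeries G i := by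
    intro i
    induction i with
    | zero =>
      intro y hy hy'
      rw [zero_add, Subgroup.upperCentralSeries_one] at hy
      simpa using h y hy hy'
    | succ i ih =>
      intro x hx _
      rw [Subgroup.mem_upperCentralSeries_succ_iff] at hx ⊢
      intro g
      have h1 := hx g
      have h2 : ⁅x, g⁆ ∈ commutator G :=
        Subgroup.commutator_mem_commutator (Subgroup.mem_top _) (Subgroup.mem_top _)
      have h3 := ih _ h1 h2
      let π := QuotientGroup.mk' (Subgroup.upperCentralSeries G i)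
      have h4 : ⁅π x, π g⁆ ∈ Subgroup.center (G ⧸ Subgroup.upperCentralSeries G i) := by
        rw [← map_commutatorElement, Subgroup.mem_center_iff]
        intro b
        obtain ⟨b, rfl⟩ := QuotientGroup.mk'_surjective _ b
        have h5 := (Subgroup.mem_upperCentralSeries_succ_iff.1 h1) b
        have h6 : π ⁅⁅x, g⁆, b⁆ = 1 := (QuotientGroup.eq_one_iff _).2 h5
        rw [map_commutatorElement, commutatorElement_eq_one_iff_mul_comm] at h6
        exact h6.symm
      have h7 : π ⁅x ^ k, g⁆ = π (⁅x, g⁆ ^ k) := by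
        rw [map_commutatorElement, map_pow, comm_pow h4, map_pow, map_commutatorElement]
      have h8 : π (⁅x, g⁆ ^ k) = 1 := (QuotientGroup.eq_one_iff _).2 h3
      exact (QuotientGroup.eq_one_iff _).1 (h7.trans h8)
  have H2 : ∀ i, ∀ y ∈ Subgroup.upperCentralSeries G i, y ∈ commutator G → y ^ k ^ i = 1 := by
    intro i
    induction i with
    | zero => intro y hy _; simpa using hy
    | succ i ih =>
      intro y hy hy'
      rw [pow_succ', pow_mul]
      exact ih _ (H i y hy hy') (Subgroup.pow_mem _ hy' _)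
  exact fun x hx => H2 c x (hc ▸ Subgroup.mem_top x) hx

/-- An element conjugate to its `(w + 1)`-th power in a nilpotent group has order dividing
`w ^ c`. -/
lemma pow_of_conj {G : Type} [Group G] {c w : ℕ} (hc : Subgroup.upperCentralSeries G c = ⊤) {x g : G}
    (h : g * x * g⁻¹ = x ^ (w + 1)) : x ^ w ^ c = 1 := by
  have H : ∀ i, ∀ y ∈ Subgroup.upperCentralSeries G i, g * y * g⁻¹ = y ^ (w + 1) → y ^ w ^ i = 1 := by
    intro i
    induction i with
    | zero => intro y hy _; simpa using hy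
    | succ i ih =>
      intro y hy hg
      rw [pow_succ', pow_mul]
      refine ih _ ?_ ?_
      · have h1 := (Subgroup.mem_upperCentralSeries_succ_iff.1 hy) g
        have h2 : y ^ w = ⁅y, g⁆⁻¹ := by
          rw [commutatorElement_inv, commutatorElement_def, hg, pow_succ]
          group
        rw [h2]
        exact Subgroup.inv_mem _ h1
      · rw [← conj_pow, hg, ← pow_mul, ← pow_mul, mul_comm]
  exact H c x (hc ▸ Subgroup.mem_top x) h

/-- The number of conjugacy classes in the derived subgroup of a finite `p`-group with a central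
commutator element of large order is divisible by a large power of `p`. -/
theorem dvd_classes {p : ℕ} (hp : p.Prime) (c M : ℕ) : ∃ e : ℕ,
    ∀ (Q : Type) [Group Q] [Finite Q] (E : ℕ) (z : Q), Subgroup.upperCentralSeries Q c = ⊤ →
      (∀ g : Q, g ^ p ^ E = 1) → z ∈ Subgroup.center Q → z ∈ commutator Q → z ^ p ^ e ≠ 1 →
      p ^ (M + 1) ∣
        Nat.card {C : ConjClasses Q // ∃ x ∈ commutator Q, ConjClasses.mk x = C} := by
  have hw1 : 1 < (1 + p) ^ p ^ M :=
    Nat.one_lt_pow (pow_pos hp.pos _).ne' (by have := hp.pos; omega)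
  obtain ⟨w, hw⟩ : ∃ w, (1 + p) ^ p ^ M = w + 1 := ⟨(1 + p) ^ p ^ M - 1, by omega⟩
  have hw0 : w ≠ 0 := by omega
  obtain ⟨v, hv⟩ := exists_ppart hp (pow_ne_zero c hw0)
  refine ⟨M + v, fun Q _ _ E z hc hE hz hz' hne => ?_⟩
  have hzc : ∀ (k : ℕ) (x : Q), x * z ^ k = z ^ k * x := fun k x =>
    Subgroup.mem_center_iff.1 (Subgroup.pow_mem _ hz k) x
  let f : ConjClasses Q → ConjClasses Q := Quotient.map' (fun x => x ^ (1 + p))
    (fun _ _ h => IsConj.pow _ h)
  let t : ConjClasses Q → ConjClasses Q := Quotient.map' (fun x => z * x) (by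
    intro a b h
    obtain ⟨g, hg⟩ := isConj_iff.1 h
    refine isConj_iff.2 ⟨g, ?_⟩
    have := hzc 1 g
    rw [pow_one] at this
    rw [← hg, ← mul_assoc g z, this]
    group)
  have hf : ∀ (i : ℕ) (x : Q), f^[i] (ConjClasses.mk x) = ConjClasses.mk (x ^ (1 + p) ^ i) := by
    intro i
    induction i with
    | zero => intro x; simp
    | succ i ih =>
      intro x
      rw [iterate_succ_apply', ih, pow_succ, pow_mul]
      rfl
  have ht : ∀ (i : ℕ) (x : Q), t^[i] (ConjClasses.mk x) = ConjClasses.mk (z ^ i * x) := by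
    intro i
    induction i with
    | zero => intro x; simp
    | succ i ih =>
      intro x
      rw [iterate_succ_apply', ih, pow_succ', mul_assoc]
      rfl
  let X : Set (ConjClasses Q) := {C | ∃ x ∈ commutator Q, ConjClasses.mk x = C}
  let A : Set (ConjClasses Q) :=
    {C | ∃ x ∈ commutator Q, (∃ k : ℕ, x ^ p ^ v = z ^ k) ∧ ConjClasses.mk x = C}
  have hAX : A ⊆ X := fun C ⟨x, h1, _, h2⟩ => ⟨x, h1, h2⟩
  have hA : ∀ x : Q, ConjClasses.mk x ∈ A → ∃ k : ℕ, x ^ p ^ v = z ^ k := by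
    rintro x ⟨y, -, ⟨k, hk⟩, hy⟩
    obtain ⟨g, hg⟩ := isConj_iff.1 (ConjClasses.mk_eq_mk_iff_isConj.1 hy)
    refine ⟨k, ?_⟩
    rw [← hg, conj_pow, hk, hzc]
    group
  have h1 : p ^ (M + 1) ∣ A.ncard := by
    refine orb hp t M A (Set.toFinite _) ?_ ?_ ?_
    · rintro _ ⟨x, hx, ⟨k, hk⟩, rfl⟩
      refine ⟨z * x, Subgroup.mul_mem _ hz' hx, ⟨p ^ v + k, ?_⟩, rfl⟩
      have : Commute z x := by
        have := hzc 1 x
        rw [pow_one] at this
        exact this.symm
      rw [this.mul_pow, hk, pow_add]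
    · rintro _ ⟨x, -, -, rfl⟩
      exact ⟨E, by rw [ht, hE, one_mul]⟩
    · rintro _ ⟨x, -, ⟨k, hk⟩, rfl⟩ hh
      rw [ht] at hh
      obtain ⟨g, hg⟩ := isConj_iff.1 (ConjClasses.mk_eq_mk_iff_isConj.1 hh.symm)
      have h2 : (g * x * g⁻¹) ^ p ^ v = (z ^ p ^ M * x) ^ p ^ v := by rw [hg]
      have h3 : Commute (z ^ p ^ M) x := (hzc _ x).symm
      rw [conj_pow, h3.mul_pow, hk, hzc, ← pow_mul, ← pow_add p] at h2
      apply hne
      have h4 : z ^ k * g * g⁻¹ = z ^ k := by group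
      rw [h4] at h2
      simpa using h2.symm
  have h2 : p ^ (M + 1) ∣ (X \ A).ncard := by
    refine orb hp f M _ (Set.toFinite _) ?_ ?_ ?_
    · rintro _ ⟨⟨x, hx, rfl⟩, hxA⟩
      refine ⟨⟨x ^ (1 + p), Subgroup.pow_mem _ hx _, rfl⟩, fun hh => hxA ?_⟩
      obtain ⟨k, hk⟩ := hA (x ^ (1 + p)) hh
      obtain ⟨a, ha⟩ : ∃ a, (1 + p) ^ p ^ E = (1 + p) * a :=
        dvd_pow_self _ (pow_pos hp.pos _).ne'
      refine ⟨x, hx, ⟨k * a, ?_⟩, rfl⟩
      have h5 := pow_pow_self (hE x)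
      rw [pow_mul, ← hk, ← pow_mul, ← pow_mul, mul_comm (p ^ v), ← mul_assoc, ← ha, pow_mul, h5]
    · rintro _ ⟨⟨x, -, rfl⟩, -⟩
      exact ⟨E, by rw [hf, pow_pow_self (hE x)]⟩
    · rintro _ ⟨⟨x, hx, rfl⟩, hxA⟩ hh
      rw [hf, hw] at hh
      obtain ⟨g, hg⟩ := isConj_iff.1 (ConjClasses.mk_eq_mk_iff_isConj.1 hh.symm)
      exact hxA ⟨x, hx, ⟨0, by rw [pow_zero]; exact hv Q x E (hE x) (pow_of_conj hc hg)⟩, rfl⟩
  have h3 : (X \ A).ncard + A.ncard = X.ncard := Set.ncard_sdiff_add_ncard_of_subset hAX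
  change p ^ (M + 1) ∣ X.ncard
  rw [← h3]
  exact dvd_add h2 h1

end Pool.Agent.MP_4f1c5b_al.H1
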