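import Mathlib

/-!
Definitions for topological representation zeta functions of unipotent groups.
-/

namespace Pool.Agent.MP_4f1c5b_al.H1

open Polynomial AlgebraicGeometry CategoryTheory IsLocalRing Filter

/-- A matrix representation is irreducible: nonzero, with no proper nonzero invariant subspace. -/
def Irred {Γ : Type} [Group Γ] {d : ℕ} (ρ : Γ →* Matrix (Fin d) (Fin d) ℂ) : Prop :=
  d ≠ 0 ∧ ∀ W : Submodule ℂ (Fin d → ℂ),
    (∀ g, ∀ w ∈ W, (ρ g).mulVec w ∈ W) → W = ⊥ ∨ W = ⊤

/-- Continuous irreducible complex representations of dimension `d`. -/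
def Irr (Γ : Type) [Group Γ] [TopologicalSpace Γ] (d : ℕ) : Type :=
  {ρ : Γ →* Matrix (Fin d) (Fin d) ℂ // Continuous ρ ∧ Irred ρ}

/-- `b` is isomorphic to the tensor product of `a` with a continuous one-dimensional
representation. -/
def Twist {Γ : Type} [Group Γ] [TopologicalSpace Γ] {d : ℕ} (a b : Irr Γ d) : Prop :=
  ∃ (χ : Γ →* ℂˣ) (P : GL (Fin d) ℂ), Continuous χ ∧
    ∀ g, b.1 g = (χ g : ℂ) • (P.1 * a.1 g * (P⁻¹).1)

/-- The number of twist classes of continuous irreducible representations of dimension `d`. -/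
noncomputable def rt (Γ : Type) [Group Γ] [TopologicalSpace Γ] (d : ℕ) : ℕ :=
  Nat.card (Quot (Twist (Γ := Γ) (d := d)))

/-- The upper unitriangular matrices over `R` that satisfy the equations `S`. -/
def pts {o : Type} [CommRing o] {n : ℕ} (S : Set (MvPolynomial (Fin n × Fin n) o))
    (R : Type) [CommRing R] [Algebra o R] : Set (GL (Fin n) R) :=
  {g | (∀ i, g.1 i i = 1) ∧ (∀ i j, j < i → g.1 i j = 0) ∧
    ∀ P ∈ S, MvPolynomial.aeval (fun ij : Fin n × Fin n => g.1 ij.1 ij.2) P = 0}

/-- The equations `S` cut out a subgroup over every domain of characteristic zero. -/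
def IsGroup {o : Type} [CommRing o] {n : ℕ} (S : Set (MvPolynomial (Fin n × Fin n) o)) : Prop :=
  ∀ (R : Type) [CommRing R] [IsDomain R] [CharZero R] [Algebra o R],
    ∃ H : Subgroup (GL (Fin n) R), (H : Set (GL (Fin n) R)) = pts S R

/-- The group of `R`-points. -/
def grp {o : Type} [CommRing o] {n : ℕ} (S : Set (MvPolynomial (Fin n × Fin n) o))
    (R : Type) [CommRing R] [Algebra o R] : Subgroup (GL (Fin n) R) :=
  Subgroup.closure (pts S R)

/-- The number of `F`-points of a scheme over `o`. -/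
noncomputable def cnt {o : Type} [CommRing o] (V : Over (Spec (CommRingCat.of o)))
    (F : Type) [CommRing F] [Algebra o F] : ℕ :=
  Nat.card (Over.mk (Spec.map (CommRingCat.ofHom (algebraMap o F))) ⟶ V)

/-- The value `A(x, y)` of a polynomial in `X` (inner variable) and `Y` (outer variable). -/
noncomputable def ev {E : Type} [CommRing E] [Algebra ℚ E] (A : ℚ[X][X]) (x y : E) : E :=
  A.eval₂ (aeval x : ℚ[X] →ₐ[ℚ] E).toRingHom y

/-- The monomial `X ^ a * Y ^ b`. -/
noncomputable def mon (a b : ℕ) : ℚ[X][X] := C (X ^ a) * X ^ b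

/-- Products of monomials and of differences of two distinct monomials. -/
def Denef (B : ℚ[X][X]) : Prop :=
  B ∈ Submonoid.closure {F : ℚ[X][X] | ∃ a b c d : ℕ,
    F = mon a b ∨ ((a, b) ≠ (c, d) ∧ F = mon a b - mon c d)}

/-- The series `∑ binom(-s, d) h ^ d` over `ℚ(s)`. -/
noncomputable def yser : PowerSeries (RatFunc ℚ) :=
  PowerSeries.mk fun d => algebraMap ℚ[X] (RatFunc ℚ)
    (C (d.factorial : ℚ)⁻¹ * (descPochhammer ℚ d).comp (-X))

/-- `W = A / B` becomes, under `X = 1 + h` and `Y = X ^ (-s)`, a power series in `h` over `ℚ(s)`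
with constant term `ρ`. -/
def IsRed (A B : ℚ[X][X]) (ρ : RatFunc ℚ) : Prop :=
  ∃ w : PowerSeries (RatFunc ℚ),
    ev A (1 + PowerSeries.X) yser = w * ev B (1 + PowerSeries.X) yser ∧
      PowerSeries.constantCoeff w = ρ

/-- The formula `ζ(s) = ∑ #V_i(O/P) W_i(q, q ^ (-s))`, `W_i = A_i / B_i`, holds for large real `s`
for every complete discrete valuation ring `O` of characteristic zero over `o` with finite residue
field of large characteristic. -/
def Formula {o : Type} [CommRing o] {n r : ℕ} (S : Set (MvPolynomial (Fin n × Fin n) o))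
    (V : Fin r → Over (Spec (CommRingCat.of o))) (A B : Fin r → ℚ[X][X]) : Prop :=
  ∃ N : ℕ, ∀ (O : Type) [CommRing O] [IsDomain O] [IsDiscreteValuationRing O] [CharZero O]
    [Algebra o O] [IsAdicComplete (maximalIdeal O) O] [Finite (ResidueField O)]
    [TopologicalSpace O], IsAdic (maximalIdeal O) → N ≤ ringChar (ResidueField O) →
      ∀ᶠ s : ℝ in atTop, HasSum (fun d : ℕ => (rt (grp S O) d : ℝ) * (d : ℝ) ^ (-s))
        (∑ i, (cnt (V i) (ResidueField O) : ℝ) *
          (ev (A i) (Nat.card (ResidueField O) : ℝ) ((Nat.card (ResidueField O) : ℝ) ^ (-s)) /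
            ev (B i) (Nat.card (ResidueField O) : ℝ) ((Nat.card (ResidueField O) : ℝ) ^ (-s))))

/-- Data `V_i`, `W_i = A_i / B_i`, `ρ_i = red W_i` as in the definition of the topological
representation zeta function `∑ χ(V_i(ℂ)) ρ_i`. -/
def Presents {o : Type} [CommRing o] {n r : ℕ} (S : Set (MvPolynomial (Fin n × Fin n) o))
    (V : Fin r → Over (Spec (CommRingCat.of o))) (A B : Fin r → ℚ[X][X])
    (ρ : Fin r → RatFunc ℚ) : Prop :=
  (∀ i, IsSeparated (V i).hom ∧ LocallyOfFiniteType (V i).hom ∧ QuasiCompact (V i).hom) ∧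
    (∀ i, Denef (B i) ∧ IsRed (A i) (B i) (ρ i)) ∧ Formula S V A B

/-- A rational function is regular at `0` with value `0`. -/
def VanishAtZero (Z : RatFunc ℚ) : Prop := Z.denom.eval 0 ≠ 0 ∧ Z.num.eval 0 = 0

end Pool.Agent.MP_4f1c5b_al.H1
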