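import Pool.Agent.MP_4f1c5b_al.H1.Defs

/-!
MODULE Dir: a Dirichlet series rational in `q ^ (-s)` whose initial sums tend to zero
`p`-adically vanishes at `s = 0`.
-/

namespace Pool.Agent.MP_4f1c5b_al.H1

open Polynomial Filter Topology

/-- The Dirichlet series of `f` has the value `a` at `s`. -/
def dr_HS (f : ℕ → ℚ) (s a : ℝ) : Prop := HasSum (fun n : ℕ => (f n : ℝ) * (n : ℝ) ^ (-s)) a

theorem dr_toL {f : ℕ → ℚ} {s a : ℝ} (hs : 0 < s) (h : dr_HS f s a) :
    LSeriesHasSum (fun n => (f n : ℂ)) s a := by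
  have h1 := Complex.hasSum_ofReal.2 h
  have e : LSeries.term (fun n => (f n : ℂ)) s
      = fun n : ℕ => (((f n : ℝ) * (n : ℝ) ^ (-s) : ℝ) : ℂ) := by
    funext n
    rcases eq_or_ne n 0 with rfl | hn
    · simp [Real.zero_rpow (neg_ne_zero.2 hs.ne')]
    · rw [LSeries.term_of_ne_zero hn, Complex.ofReal_mul,
        Complex.ofReal_cpow (Nat.cast_nonneg n), Complex.ofReal_neg, Complex.cpow_neg,
        div_eq_mul_inv]
      simp
  rw [LSeriesHasSum, e]
  exact h1

theorem dr_unique {f g : ℕ → ℚ} (h : ∀ᶠ s : ℝ in atTop, ∃ a, dr_HS f s a ∧ dr_HS g s a)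
    {n : ℕ} (hn : n ≠ 0) : f n = g n := by
  have h1 := h.and (eventually_gt_atTop 0)
  obtain ⟨s, ⟨a, h2, h3⟩, hs⟩ := h1.exists
  have := LSeries.eq_of_LSeries_eventually_eq
    (((dr_toL hs h2).LSeriesSummable.abscissaOfAbsConv_le).trans_lt (EReal.coe_lt_top _))
    (((dr_toL hs h3).LSeriesSummable.abscissaOfAbsConv_le).trans_lt (EReal.coe_lt_top _))
    (h1.mono fun s ⟨⟨a, h2, h3⟩, hs⟩ =>
      (dr_toL hs h2).LSeries_eq.trans (dr_toL hs h3).LSeries_eq.symm) hn
  exact_mod_cast this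

/-- Multiplication of a Dirichlet series by `q ^ (-s)`. -/
def dr_T (q : ℕ) : Module.End ℚ (ℕ → ℚ) where
  toFun f n := if q ∣ n then f (n / q) else 0
  map_add' f g := by
    funext n
    by_cases h : q ∣ n <;> simp [h]
  map_smul' c f := by
    funext n
    by_cases h : q ∣ n <;> simp [h]

theorem dr_T_mul {q : ℕ} (hq : 0 < q) (f : ℕ → ℚ) (n : ℕ) : dr_T q f (q * n) = f n := by
  show (if q ∣ q * n then f (q * n / q) else 0) = f n
  rw [if_pos (dvd_mul_right q n), Nat.mul_div_cancel_left n hq]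

theorem dr_T_not {q n : ℕ} (f : ℕ → ℚ) (h : ¬ q ∣ n) : dr_T q f n = 0 := if_neg h

theorem dr_HS.T {q : ℕ} (hq : 0 < q) {f : ℕ → ℚ} {s a : ℝ} (h : dr_HS f s a) :
    dr_HS (dr_T q f) s ((q : ℝ) ^ (-s) * a) := by
  refine ((mul_right_injective₀ hq.ne').hasSum_iff fun n hn => ?_).1 ?_
  · rw [dr_T_not f fun ⟨k, hk⟩ => hn ⟨k, hk.symm⟩]
    simp
  · have h1 := HasSum.mul_left ((q : ℝ) ^ (-s)) h
    have e : ((fun n : ℕ => (dr_T q f n : ℝ) * (n : ℝ) ^ (-s)) ∘ fun n => q * n)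
        = fun n : ℕ => (q : ℝ) ^ (-s) * ((f n : ℝ) * (n : ℝ) ^ (-s)) := by
      funext n
      simp only [Function.comp, dr_T_mul hq, Nat.cast_mul,
        Real.mul_rpow (Nat.cast_nonneg q) (Nat.cast_nonneg n)]
      ring
    rw [e]
    exact h1

theorem dr_HS.aeval {q : ℕ} (hq : 0 < q) {s : ℝ} (B : ℚ[X]) : ∀ {f : ℕ → ℚ} {a : ℝ},
    dr_HS f s a → dr_HS (aeval (dr_T q) B f) s (aeval ((q : ℝ) ^ (-s)) B * a) := by
  induction B using Polynomial.induction_on with
  | C c =>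
    intro f a h
    have h1 := HasSum.mul_left (c : ℝ) h
    simpa [dr_HS, mul_assoc] using h1
  | add B B' ih ih' =>
    intro f a h
    have h1 := HasSum.add (ih h) (ih' h)
    simpa [dr_HS, add_mul] using h1
  | monomial k c ih =>
    intro f a h
    have h1 := ih (h.T hq)
    rw [pow_succ, ← mul_assoc, map_mul _ _ X, map_mul _ _ X, aeval_X, aeval_X, mul_assoc]
    exact h1

/-- The generating series along `n q ^ a`. -/
noncomputable def dr_Psi (q n : ℕ) (f : ℕ → ℚ) : PowerSeries ℚ :=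
  PowerSeries.mk fun a => f (q ^ a * n)

theorem dr_Psi_aeval {q n : ℕ} (hq : 0 < q) (hn : ¬ q ∣ n) (B : ℚ[X]) : ∀ f : ℕ → ℚ,
    dr_Psi q n (aeval (dr_T q) B f) = (B : PowerSeries ℚ) * dr_Psi q n f := by
  induction B using Polynomial.induction_on with
  | C c =>
    intro f
    ext a
    simp [dr_Psi]
  | add B B' ih ih' =>
    intro f
    rw [Polynomial.coe_add, add_mul, ← ih, ← ih']
    ext a
    simp [dr_Psi]
  | monomial k c ih =>
    intro f
    have h1 : dr_Psi q n (dr_T q f) = PowerSeries.X * dr_Psi q n f := by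
      ext a
      cases a with
      | zero => simp [dr_Psi, dr_T_not f hn]
      | succ a =>
        rw [PowerSeries.coeff_succ_X_mul, dr_Psi, dr_Psi, PowerSeries.coeff_mk,
          PowerSeries.coeff_mk, pow_succ', mul_assoc, dr_T_mul hq]
    rw [pow_succ, ← mul_assoc, map_mul _ _ X, aeval_X, Polynomial.coe_mul _ X, Polynomial.coe_X,
      mul_assoc, ← h1, ← ih]
    rfl

/-- The coefficients tend to zero `p`-adically. -/
def dr_Nul (p : ℕ) [Fact p.Prime] (S : PowerSeries ℚ) : Prop :=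
  Tendsto (fun a => ((PowerSeries.coeff a S : ℚ) : ℚ_[p])) atTop (𝓝 0)

theorem dr_Nul.mul {p : ℕ} [Fact p.Prime] (B : ℚ[X]) : ∀ {S : PowerSeries ℚ},
    dr_Nul p S → dr_Nul p ((B : PowerSeries ℚ) * S) := by
  induction B using Polynomial.induction_on with
  | C c =>
    intro S h
    have h1 := Tendsto.const_mul (c : ℚ_[p]) h
    simpa [dr_Nul] using h1
  | add B B' ih ih' =>
    intro S h
    have h1 := Tendsto.add (ih h) (ih' h)
    simpa [dr_Nul, add_mul] using h1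
  | monomial k c ih =>
    intro S h
    rw [pow_succ, ← mul_assoc, Polynomial.coe_mul _ X, Polynomial.coe_X, mul_assoc]
    refine ih ?_
    rw [dr_Nul, ← tendsto_add_atTop_iff_nat 1]
    simp only [PowerSeries.coeff_succ_X_mul]
    exact h

theorem dr_Nul.dvd_one {p : ℕ} [Fact p.Prime] {P : ℚ[X]} {S : PowerSeries ℚ} (h : dr_Nul p S)
    (e : (P : PowerSeries ℚ) = ((X - 1 : ℚ[X]) : PowerSeries ℚ) * S) : (X - 1) ∣ P := by
  rw [Polynomial.coe_sub, Polynomial.coe_X, Polynomial.coe_one, sub_mul, one_mul] at e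
  have h1 : ∀ a, PowerSeries.coeff a S = -∑ j ∈ Finset.range (a + 1), P.coeff j := by
    intro a
    induction a with
    | zero =>
      have := congrArg (PowerSeries.coeff 0) e
      simp only [Polynomial.coeff_coe, map_sub, PowerSeries.coeff_zero_X_mul] at this
      simp [this]
    | succ a ih =>
      have := congrArg (PowerSeries.coeff (a + 1)) e
      rw [Polynomial.coeff_coe, map_sub, PowerSeries.coeff_succ_X_mul] at this
      rw [Finset.sum_range_succ, this, ih]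
      ring
  have h2 : ∀ᶠ a in atTop, ((PowerSeries.coeff a S : ℚ) : ℚ_[p]) = ((-P.eval 1 : ℚ) : ℚ_[p]) := by
    filter_upwards [eventually_ge_atTop P.natDegree] with a ha
    rw [h1, eval_eq_sum_range' (Nat.lt_succ_of_le ha)]
    simp
  have h3 := tendsto_nhds_unique (tendsto_const_nhds.congr' (h2.mono fun _ h => h.symm)) h
  have h4 : P.eval 1 = 0 := by simpa using h3
  simpa using (dvd_iff_isRoot (p := P) (a := 1)).2 h4

theorem dr_Nul.dvd {p : ℕ} [Fact p.Prime] {S : PowerSeries ℚ} (h : dr_Nul p S) (k : ℕ) :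
    ∀ P : ℚ[X], (P : PowerSeries ℚ) = (((X - 1) ^ k : ℚ[X]) : PowerSeries ℚ) * S →
      (X - 1) ^ k ∣ P := by
  induction k with
  | zero => simp
  | succ k ih =>
    intro P e
    rw [pow_succ', Polynomial.coe_mul, mul_assoc] at e
    obtain ⟨P₁, rfl⟩ := (h.mul _).dvd_one e
    rw [Polynomial.coe_mul] at e
    have h0 : ((X - 1 : ℚ[X]) : PowerSeries ℚ) ≠ 0 := by
      rw [Ne, Polynomial.coe_eq_zero_iff]
      simpa using X_sub_C_ne_zero (1 : ℚ)
    rw [pow_succ']
    exact mul_dvd_mul_left _ (ih P₁ (mul_left_cancel₀ h0 e))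

theorem dvd_of_dirichlet {p q : ℕ} (hp : p.Prime) (hq : 2 ≤ q) (r : ℕ → ℕ) (h0 : r 0 = 0)
    (hr : ∀ M : ℕ, ∃ D0 : ℕ, ∀ D, D0 ≤ D → p ^ M ∣ ∑ d ∈ Finset.range D, r d)
    (P B : ℚ[X]) (hB : B ≠ 0) (t : ℕ) (ht : (X - 1) ^ t ∣ B)
    (hs : ∀ᶠ s : ℝ in atTop, HasSum (fun d : ℕ => (r d : ℝ) * (d : ℝ) ^ (-s))
      (aeval ((q : ℝ) ^ (-s)) P / aeval ((q : ℝ) ^ (-s)) B)) :
    (X - 1) ^ (t + 1) ∣ P := by
  classical
  have : Fact p.Prime := ⟨hp⟩
  have hq0 : 0 < q := by omega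
  have hq1 : (1 : ℝ) < q := by exact_mod_cast hq
  let f : ℕ → ℚ := fun n => r n
  let δ : ℕ → ℚ := Pi.single 1 1
  have hne : ∀ᶠ s : ℝ in atTop, aeval ((q : ℝ) ^ (-s)) B ≠ 0 := by
    have h1 : ((fun s : ℝ => (q : ℝ) ^ (-s)) ⁻¹' B.rootSet ℝ).Finite :=
      (B.rootSet_finite ℝ).preimage fun s _ s' _ h =>
        neg_injective ((Real.strictMono_rpow_of_base_gt_one hq1).injective h)
    filter_upwards [atTop_le_cofinite h1.eventually_cofinite_notMem] with s hs h
    exact hs ((mem_rootSet_of_ne hB).2 h)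
  have hδ : ∀ s, dr_HS δ s 1 := fun s => by
    have := hasSum_single (f := fun n : ℕ => (δ n : ℝ) * (n : ℝ) ^ (-s)) 1 fun n hn => by
      simp [δ, hn]
    simpa [δ, dr_HS] using this
  have key : ∀ n, n ≠ 0 → aeval (dr_T q) B f n = aeval (dr_T q) P δ n := fun n hn => by
    refine dr_unique ?_ hn
    filter_upwards [hs, hne] with s h1 h2
    have h3 : dr_HS f s (aeval ((q : ℝ) ^ (-s)) P / aeval ((q : ℝ) ^ (-s)) B) := by
      simpa only [dr_HS, f, Rat.cast_natCast] using h1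
    refine ⟨_, h3.aeval hq0 B, ?_⟩
    rw [mul_div_cancel₀ _ h2]
    simpa using (hδ s).aeval hq0 P
  have key2 : ∀ n, ¬ q ∣ n → (B : PowerSeries ℚ) * dr_Psi q n f = P * dr_Psi q n δ := by
    intro n hn
    rw [← dr_Psi_aeval hq0 hn, ← dr_Psi_aeval hq0 hn]
    ext a
    simp only [dr_Psi, PowerSeries.coeff_mk]
    exact key _ (mul_ne_zero (pow_ne_zero _ hq0.ne') (by rintro rfl; exact hn (dvd_zero q)))
  have hz : ∀ n, (∀ a, n ≠ q ^ a) → r n = 0 := by
    intro n hn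
    rcases eq_or_ne n 0 with rfl | hn0
    · exact h0
    obtain ⟨a, m, hm, rfl⟩ := Nat.exists_eq_pow_mul_and_not_dvd hn0 q (by omega)
    have h1 : dr_Psi q m δ = 0 := by
      ext b
      have : q ^ b * m ≠ 1 := fun h => hn a (by rw [Nat.eq_one_of_mul_eq_one_left h, mul_one])
      simp [dr_Psi, δ, this]
    have h2 := key2 m hm
    rw [h1, mul_zero, mul_eq_zero, Polynomial.coe_eq_zero_iff, or_iff_right hB] at h2
    simpa [dr_Psi, f] using congrArg (PowerSeries.coeff a) h2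
  have h1 : dr_Psi q 1 δ = 1 := by
    ext b
    cases b with
    | zero => simp [dr_Psi, δ]
    | succ b =>
      have : q ≠ 1 := by omega
      simp [dr_Psi, δ, PowerSeries.coeff_one, this]
  have h2 := key2 1 (by rw [Nat.dvd_one]; omega)
  rw [h1, mul_one] at h2
  let S : PowerSeries ℚ := PowerSeries.mk fun a => ∑ j ∈ Finset.range (a + 1), (r (q ^ j) : ℚ)
  have h3 : dr_Psi q 1 f = -(((X - 1 : ℚ[X]) : PowerSeries ℚ) * S) := by
    rw [Polynomial.coe_sub, Polynomial.coe_X, Polynomial.coe_one, sub_mul, one_mul, neg_sub]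
    ext a
    cases a with
    | zero => simp [dr_Psi, S, f]
    | succ a =>
      rw [map_sub, PowerSeries.coeff_succ_X_mul]
      simp [dr_Psi, S, f, Finset.sum_range_succ _ (a + 1)]
  have h4 : ∀ a, ∑ j ∈ Finset.range (a + 1), r (q ^ j) = ∑ d ∈ Finset.range (q ^ a + 1), r d := by
    intro a
    rw [← Finset.sum_image fun i _ j _ h => Nat.pow_right_injective hq h]
    refine Finset.sum_subset (fun d hd => ?_) fun d hd hd' => hz d fun b hb => hd' ?_
    · obtain ⟨j, hj, rfl⟩ := Finset.mem_image.1 hd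
      rw [Finset.mem_range, Nat.lt_succ_iff] at hj ⊢
      exact Nat.pow_le_pow_right hq0 hj
    · refine Finset.mem_image.2 ⟨b, ?_, hb.symm⟩
      rw [Finset.mem_range, Nat.lt_succ_iff] at hd ⊢
      exact (Nat.pow_le_pow_iff_right hq).1 (hb ▸ hd)
  have h5 : dr_Nul p S := by
    rw [dr_Nul, NormedAddGroup.tendsto_nhds_zero]
    intro ε hε
    obtain ⟨M, hM⟩ := PadicInt.exists_pow_neg_lt p hε
    obtain ⟨D0, hD0⟩ := hr M
    filter_upwards [eventually_ge_atTop D0] with a ha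
    have h6 := hD0 (q ^ a + 1) (ha.trans ((Nat.lt_pow_self hq).le.trans (Nat.le_succ _)))
    rw [← h4, ← Int.natCast_dvd_natCast, Nat.cast_pow, ← Padic.norm_int_le_pow_iff_dvd] at h6
    refine lt_of_eq_of_lt ?_ (h6.trans_lt hM)
    simp [S]
  obtain ⟨B₁, rfl⟩ := ht
  refine (h5.mul (-B₁)).dvd _ P ?_
  rw [← h2, h3, pow_succ, Polynomial.coe_mul, Polynomial.coe_mul, Polynomial.coe_neg]
  ring

end Pool.Agent.MP_4f1c5b_al.H1
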