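import Pool.Agent.MP_4f1c5b_al.H1.Defs

/-!
Integer vectors that are limits of point counts as the size of the residue field tends to `1`.
-/

namespace Pool.Agent.MP_4f1c5b_al.H1

open AlgebraicGeometry CategoryTheory IsLocalRing

/-- For every modulus `M` there are complete discrete valuation rings of characteristic zero over
`o`, with finite residue field `F` of arbitrarily large characteristic, such that `#F ≡ 1` and
`#V_i(F) ≡ c_i` modulo `M` for all `i`. -/
def EulerLike {o : Type} [CommRing o] {r : ℕ} (V : Fin r → Over (Spec (CommRingCat.of o)))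
    (c : Fin r → ℤ) : Prop :=
  ∀ M N : ℕ, M ≠ 0 → ∃ (O : Type) (_ : CommRing O) (_ : IsDomain O)
    (_ : IsDiscreteValuationRing O) (_ : CharZero O) (_ : Algebra o O)
    (_ : IsAdicComplete (maximalIdeal O) O) (_ : Finite (ResidueField O)),
      N ≤ ringChar (ResidueField O) ∧ (Nat.card (ResidueField O) : ℤ) ≡ 1 [ZMOD M] ∧
        ∀ i, (cnt (V i) (ResidueField O) : ℤ) ≡ c i [ZMOD M]

end Pool.Agent.MP_4f1c5b_al.H1
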