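import Pool.Agent.MP_4f1c5b_al.H1.Main
import Pool.Agent.MP_4f1c5b_al.H1.EDefs

/-!
Limits of point counts satisfy all polynomial relations between the point counts at `q = 1`.
-/

namespace Pool.Agent.MP_4f1c5b_al.H1

open Polynomial AlgebraicGeometry CategoryTheory IsLocalRing

lemma exists_int {r : ℕ} (α : Fin r → ℚ[X]) : ∃ (L : ℤ) (β : Fin r → ℤ[X]), L ≠ 0 ∧
    ∀ i (x : ℤ), (((β i).eval x : ℤ) : ℚ) = L * (α i).eval (x : ℚ) := by
  classical
  choose b hb hb' using fun i =>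
    IsLocalization.integerNormalization_spec (nonZeroDivisors ℤ) (α i)
  refine ⟨∏ i, b i, fun i => C (∏ j ∈ Finset.univ.erase i, b j) *
    IsLocalization.integerNormalization (nonZeroDivisors ℤ) (α i),
    Finset.prod_ne_zero_iff.2 fun i _ => nonZeroDivisors.ne_zero (hb i), fun i x => ?_⟩
  have h1 := congrArg (eval (x : ℚ)) (hb' i)
  have h2 : (x : ℚ) = algebraMap ℤ ℚ x := by simp
  rw [Polynomial.eval_map, h2, eval₂_hom, eval_smul] at h1
  beta_reduce
  rw [eval_mul, eval_C, ← Finset.mul_prod_erase _ _ (Finset.mem_univ i)]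
  simp only [eq_intCast, zsmul_eq_mul] at h1
  push_cast
  rw [h1]
  ring

lemma EulerLike.rel {o : Type} [CommRing o] {r : ℕ}
    {V : Fin r → Over (Spec (CommRingCat.of o))} {c : Fin r → ℤ} (hc : EulerLike V c)
    (α : Fin r → ℚ[X]) (hα : α ∈ Rel V) : ∑ i, (α i).eval 1 * (c i : ℚ) = 0 := by
  obtain ⟨N, hN⟩ := mem_rel.1 hα
  obtain ⟨L, β, hL, hβ⟩ := exists_int α
  set x : ℤ := ∑ i, (β i).eval 1 * c i with hx
  obtain ⟨O, _, _, _, _, _, _, _, hp, hq, hV⟩ := hc (x.natAbs + 1) N (by omega)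
  have h1 := hN O hp
  have h2 : ∑ i, (β i).eval (Nat.card (ResidueField O) : ℤ) * (cnt (V i) (ResidueField O) : ℤ)
      = 0 := by
    apply Int.cast_injective (α := ℚ)
    push_cast
    simp only [hβ, mul_assoc, ← Finset.mul_sum]
    push_cast
    rw [h1, mul_zero]
  have h3 : ((x.natAbs + 1 : ℕ) : ℤ) ∣ x := by
    have h4 : ((x.natAbs + 1 : ℕ) : ℤ) ∣ x - ∑ i, (β i).eval (Nat.card (ResidueField O) : ℤ) *
        (cnt (V i) (ResidueField O) : ℤ) := by
      rw [hx, ← Finset.sum_sub_distrib]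
      refine Finset.dvd_sum fun i _ => Int.ModEq.dvd (Int.ModEq.mul ?_ (hV i))
      exact (Int.modEq_iff_dvd.2 (hq.dvd.trans (sub_dvd_eval_sub _ _ _)))
    rwa [h2, sub_zero] at h4
  have h5 : x = 0 := by
    refine Int.eq_zero_of_dvd_of_natAbs_lt_natAbs h3 ?_
    rw [Int.natAbs_natCast]
    omega
  have h6 : (x : ℚ) = L * ∑ i, (α i).eval 1 * (c i : ℚ) := by
    rw [hx]
    push_cast
    simp only [hβ, mul_assoc, ← Finset.mul_sum]
    simp
  rw [h5, Int.cast_zero] at h6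
  exact (mul_eq_zero.1 h6.symm).resolve_left (Int.cast_ne_zero.2 hL)

end Pool.Agent.MP_4f1c5b_al.H1
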