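import Pool.Agent.MP_4f1c5b_al.H1.Cls
import Pool.Agent.MP_4f1c5b_al.H1.Rep

/-!
Levels of continuous representations of a tower.
-/

namespace Pool.Agent.MP_4f1c5b_al.H1

open scoped commutatorElement

lemma nss_ring {A : Type} [NormedRing A] [NormedAlgebra ℝ A] {a : A}
    (h : ∀ k : ℕ, ‖a ^ k - 1‖ ≤ 1 / 2) : a = 1 := by
  have H : ∀ j : ℕ, (3 / 2 : ℝ) ^ j * ‖a - 1‖ ≤ ‖a ^ 2 ^ j - 1‖ := by
    intro j
    induction j with
    | zero => simp
    | succ j ih =>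
      set b := a ^ 2 ^ j with hb
      have h1 : a ^ 2 ^ (j + 1) = b * b := by rw [pow_succ, pow_mul, sq]
      have h2 : (2 : ℝ) • (b - 1) = (b * b - 1) - (b - 1) * (b - 1) := by
        rw [two_smul]; noncomm_ring
      have h3 : 2 * ‖b - 1‖ ≤ ‖b * b - 1‖ + ‖b - 1‖ * ‖b - 1‖ := by
        have := norm_sub_le (b * b - 1) ((b - 1) * (b - 1))
        rw [← h2, norm_smul, Real.norm_ofNat] at this
        linarith [norm_mul_le (b - 1) (b - 1)]
      have h4 : ‖b - 1‖ ≤ 1 / 2 := h _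
      rw [h1, pow_succ]
      nlinarith [norm_nonneg (b - 1)]
  by_contra hne
  have hpos : 0 < ‖a - 1‖ := norm_pos_iff.2 (sub_ne_zero.2 hne)
  obtain ⟨j, hj⟩ := pow_unbounded_of_one_lt (1 / 2 / ‖a - 1‖) (by norm_num : (1 : ℝ) < 3 / 2)
  rw [div_lt_iff₀ hpos] at hj
  linarith [H j, h (2 ^ j)]

variable {Γ : Type} [Group Γ] [TopologicalSpace Γ] {p : ℕ} {N : ℕ → Subgroup Γ}

lemma Tower.nss (T : Tower Γ p N) {A : Type} [NormedRing A] [NormedAlgebra ℝ A] (f : Γ →* A)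
    (hf : Continuous f) : ∃ m, ∀ g ∈ N m, f g = 1 := by
  have h1 : f ⁻¹' Metric.closedBall 1 (1 / 2) ∈ nhds (1 : Γ) :=
    hf.continuousAt.preimage_mem_nhds (by
      rw [map_one]; exact Metric.closedBall_mem_nhds _ (by norm_num))
  obtain ⟨m, hm⟩ := T.basis _ h1
  refine ⟨m, fun g hg => nss_ring fun k => ?_⟩
  have := hm ((N m).pow_mem hg k)
  simpa [dist_eq_norm] using this

open scoped Matrix.Norms.Operator in
lemma Tower.lev (T : Tower Γ p N) {d : ℕ} (a : Irr Γ d) : ∃ m, ∀ g ∈ N m, a.1 g = 1 :=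
  T.nss a.1 a.2.1

lemma Tower.levChar (T : Tower Γ p N) (χ : Γ →* ℂˣ) (h : Continuous χ) :
    ∃ m, ∀ g ∈ N m, χ g = 1 := by
  obtain ⟨m, hm⟩ := T.nss ((Units.coeHom ℂ).comp χ) (Units.continuous_val.comp h)
  exact ⟨m, fun g hg => Units.ext (hm g hg)⟩

lemma Tower.cont (T : Tower Γ p N) {A : Type} [Monoid A] [TopologicalSpace A] (f : Γ →* A) {m : ℕ}
    (h : ∀ g ∈ N m, f g = 1) : Continuous f := by
  refine IsLocallyConstant.continuous ((IsLocallyConstant.iff_exists_open _).2 fun g => ?_)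
  refine ⟨_, T.isOpen m g, by simp [(N m).one_mem], fun x hx => ?_⟩
  have : x = g * (g⁻¹ * x) := by group
  rw [this, map_mul, h _ hx, mul_one]

lemma twist_equiv {d : ℕ} : Equivalence (Twist (Γ := Γ) (d := d)) := by
  refine ⟨fun a => ⟨1, 1, continuous_const, by simp⟩, ?_, ?_⟩
  · rintro a b ⟨χ, P, hχ, h⟩
    refine ⟨χ⁻¹, P⁻¹, hχ.inv, fun g => ?_⟩
    rw [h]
    simp [smul_smul, Matrix.mul_assoc]
  · rintro a b c ⟨χ, P, hχ, h⟩ ⟨χ', P', hχ', h'⟩
    refine ⟨χ' * χ, P' * P, hχ'.mul hχ, fun g => ?_⟩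
    rw [h', h]
    simp [smul_smul, Matrix.mul_assoc]

lemma twist_iff {d : ℕ} {a b : Irr Γ d} :
    Quot.mk Twist a = Quot.mk Twist b ↔ Twist a b := by
  rw [Quot.eq, twist_equiv.eqvGen_iff]

/-- Tensoring with a one-dimensional representation. -/
noncomputable def tw {G : Type} [Group G] {d : ℕ} (χ : G →* ℂˣ)
    (ρ : G →* Matrix (Fin d) (Fin d) ℂ) : G →* Matrix (Fin d) (Fin d) ℂ where
  toFun g := (χ g : ℂ) • ρ g
  map_one' := by simp
  map_mul' g h := by simp [smul_smul, mul_comm]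

lemma Irred.tw {G : Type} [Group G] {d : ℕ} {ρ : G →* Matrix (Fin d) (Fin d) ℂ} (h : Irred ρ)
    (χ : G →* ℂˣ) : Irred (tw χ ρ) := by
  refine ⟨h.1, fun W hW => h.2 W fun g w hw => ?_⟩
  have h1 := W.smul_mem ((χ g)⁻¹ : ℂˣ) (hW g w hw)
  change (((χ g)⁻¹ : ℂˣ) : ℂ) • ((χ g : ℂ) • ρ g).mulVec w ∈ W at h1
  rwa [Matrix.smul_mulVec, smul_smul, Units.inv_mul, one_smul] at h1

lemma Irred.of_comp {G Q : Type} [Group G] [Group Q] {d : ℕ} {ρ : Q →* Matrix (Fin d) (Fin d) ℂ}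
    (f : G →* Q) (h : Irred (ρ.comp f)) : Irred ρ :=
  ⟨h.1, fun W hW => h.2 W fun g => hW (f g)⟩

lemma Irred.comp {G Q : Type} [Group G] [Group Q] {d : ℕ} {ρ : Q →* Matrix (Fin d) (Fin d) ℂ}
    (h : Irred ρ) (f : G →* Q) (hf : Function.Surjective f) : Irred (ρ.comp f) :=
  ⟨h.1, fun W hW => h.2 W fun g => by obtain ⟨x, rfl⟩ := hf g; exact hW x⟩

/-- The class has a member that is trivial on `N m`. -/
def Lev (N : ℕ → Subgroup Γ) (m : ℕ) {d : ℕ} (τ : Quot (Twist (Γ := Γ) (d := d))) : Prop :=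
  ∃ a : Irr Γ d, Quot.mk _ a = τ ∧ ∀ g ∈ N m, a.1 g = 1

lemma Tower.lev_mono (T : Tower Γ p N) {m m' d : ℕ} (h : m ≤ m')
    {τ : Quot (Twist (Γ := Γ) (d := d))} (hτ : Lev N m τ) : Lev N m' τ := by
  obtain ⟨a, ha, h1⟩ := hτ
  exact ⟨a, ha, fun g hg => h1 g (T.anti h hg)⟩

lemma powSub_normal (k : ℕ) : (powSub (commutator Γ) k).Normal := by
  refine ⟨fun x hx g => ?_⟩
  induction hx using Subgroup.closure_induction with
  | mem x hx =>
    obtain ⟨y, hy, rfl⟩ := hx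
    exact Subgroup.subset_closure
      ⟨g * y * g⁻¹, (inferInstance : (commutator Γ).Normal).conj_mem y hy g, conj_pow.symm⟩
  | one => simpa using Subgroup.one_mem _
  | mul x y _ _ hx hy => simpa [mul_assoc] using Subgroup.mul_mem _ hx hy
  | inv x _ hx => simpa [mul_assoc] using Subgroup.inv_mem _ hx

lemma Tower.stab (T : Tower Γ p N) (e : ℕ) : ∃ m0, ∀ m, m0 ≤ m →
    (commutator Γ ⊔ N m) ⊓ N m0 ≤ powSub (commutator Γ) (p ^ e) ⊔ N m := by
  obtain ⟨C, hC⟩ := T.rank e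
  set D := commutator Γ
  set K := powSub D (p ^ e)
  have hKD : K ≤ D := (Subgroup.closure_le _).2 (by
    rintro _ ⟨x, hx, rfl⟩; exact D.pow_mem hx _)
  let i : ℕ → ℕ := fun m => (K ⊔ N m).relIndex (D ⊔ N m)
  have hi : ∀ m, i m ≠ 0 := by
    intro m
    have := T.fin m
    have : (K ⊔ N m).FiniteIndex := Subgroup.finiteIndex_of_le le_sup_right
    exact fun h => Subgroup.FiniteIndex.index_ne_zero (Subgroup.index_eq_zero_of_relIndex_eq_zero h)
  obtain ⟨m0, hm0⟩ : ∃ m0, ∀ m, i m ≤ i m0 := by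
    have hb : BddAbove (Set.range i) := ⟨C, by rintro _ ⟨m, rfl⟩; exact hC m⟩
    obtain ⟨m0, hm0⟩ := Nat.sSup_mem (Set.range_nonempty i) hb
    exact ⟨m0, fun m => hm0 ▸ le_csSup hb ⟨m, rfl⟩⟩
  refine ⟨m0, fun m hm => ?_⟩
  have hN := T.anti hm
  have := T.normal m0
  have : K.Normal := powSub_normal _
  have h1 : K ⊔ N m ≤ (K ⊔ N m0) ⊓ (D ⊔ N m) :=
    le_inf (sup_le_sup_left hN _) (sup_le_sup_right hKD _)
  have h2 := Subgroup.relIndex_mul_relIndex _ _ _ h1 (inf_le_right (a := K ⊔ N m0))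
  have h3 : ((K ⊔ N m0) ⊓ (D ⊔ N m)).relIndex (D ⊔ N m) = i m0 := by
    rw [Subgroup.inf_relIndex_right, ← Subgroup.relIndex_sup_right]
    congr 1
    refine le_antisymm (sup_le (sup_le le_sup_left (hN.trans le_sup_right))
      (sup_le_sup_right hKD _)) (sup_le (le_sup_of_le_left le_sup_left)
      (le_sup_of_le_right le_sup_right))
  rw [h3] at h2
  have h4 : (K ⊔ N m).relIndex ((K ⊔ N m0) ⊓ (D ⊔ N m)) = 1 := by
    have a1 := hm0 m
    have a2 := hi m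
    have a3 := Nat.pos_of_ne_zero (hi m0)
    change _ = i m at h2
    set x := (K ⊔ N m).relIndex ((K ⊔ N m0) ⊓ (D ⊔ N m))
    rcases x with _ | _ | x
    · simp at h2; omega
    · rfl
    · nlinarith
  exact fun x hx => Subgroup.relIndex_eq_one.1 h4 ⟨Subgroup.mem_sup_right hx.2, hx.1⟩

lemma upper_of_surj {G Q : Type} [Group G] [Group Q] {c : ℕ}
    (hc : Subgroup.upperCentralSeries G c = ⊤) (f : G →* Q) (hf : Function.Surjective f) :
    Subgroup.upperCentralSeries Q c = ⊤ := by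
  refine eq_top_iff.2 fun y _ => ?_
  obtain ⟨x, rfl⟩ := hf y
  exact Subgroup.upperCentralSeries.map hf c ⟨x, hc ▸ Subgroup.mem_top x, rfl⟩

lemma comm_of_surj {G Q : Type} [Group G] [Group Q] (f : G →* Q) (hf : Function.Surjective f) :
    (commutator G).map f = commutator Q := by
  rw [commutator_def, Subgroup.map_commutator, Subgroup.map_top_of_surjective _ hf, commutator_def]

/-- Extension of characters along a homomorphism to a finite abelian quotient. -/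
lemma exists_ext {G B : Type} [Group G] [Group B] (L : Subgroup G) [L.Normal] [L.FiniteIndex]
    (hL : commutator G ≤ L) (φ : B →* G) (l : B →* ℂˣ) (h : ∀ b, φ b ∈ L → l b = 1) :
    ∃ χ : G →* ℂˣ, (∀ g ∈ L, χ g = 1) ∧ ∀ b, χ (φ b) = l b := by
  have hc := Subgroup.Normal.quotient_commutative_iff_commutator_le.2 hL
  letI : CommGroup (G ⧸ L) := { (inferInstance : Group (G ⧸ L)) with mul_comm := hc.1.1 }
  let ψ : B →* G ⧸ L := (QuotientGroup.mk' L).comp φ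
  have hk : ψ.rangeRestrict.ker ≤ l.ker := by
    intro b hb
    rw [MonoidHom.ker_rangeRestrict] at hb
    exact h b ((QuotientGroup.eq_one_iff _).1 hb)
  let l' : ψ.range →* ℂˣ := ψ.rangeRestrict.liftOfSurjective ψ.rangeRestrict_surjective ⟨l, hk⟩
  have : NeZero (Monoid.exponent (G ⧸ L) : ℂ) :=
    ⟨Nat.cast_ne_zero.2 Monoid.exponent_ne_zero_of_finite⟩
  obtain ⟨χ, hχ⟩ := MonoidHom.domRestrict_surjective (M := ℂ) ψ.range l'
  refine ⟨χ.comp (QuotientGroup.mk' L), fun g hg => ?_, fun b => ?_⟩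
  · simp [(QuotientGroup.eq_one_iff g).2 hg]
  · have h1 : l' (ψ.rangeRestrict b) = l b :=
      MonoidHom.liftOfRightInverse_comp_apply _ _ _ _ _
    rw [← h1, ← hχ]
    rfl

/-- Classes whose scalars on the derived subgroup have bounded order have bounded level. -/
lemma Tower.reduce (T : Tower Γ p N) (e : ℕ) : ∃ m0, ∀ (d : ℕ) (a : Irr Γ d),
    (∀ z ∈ commutator Γ, ∀ c : ℂ, a.1 z = c • (1 : Matrix (Fin d) (Fin d) ℂ) → c ^ p ^ e = 1) →
      Lev N m0 (Quot.mk _ a) := by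
  obtain ⟨c, hc⟩ := T.nil.nilpotent'
  obtain ⟨m0, hm0⟩ := T.stab (e * c)
  refine ⟨m0, fun d a ha => ?_⟩
  obtain ⟨m1, hm1⟩ := T.lev a
  set m := max m0 m1
  have hm : ∀ g ∈ N m, a.1 g = 1 := fun g hg => hm1 g (T.anti (le_max_right _ _) hg)
  let π := a.1.toHomUnits.rangeRestrict
  have hπ : Function.Surjective π := MonoidHom.rangeRestrict_surjective _
  have hval : ∀ g, ((π g).1 : Matrix (Fin d) (Fin d) ℂ) = a.1 g := fun g => rfl
  have h1 : ∀ x ∈ commutator Γ, a.1 (x ^ p ^ (e * c)) = 1 := by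
    intro x hx
    have h2 := exponent_comm (k := p ^ e) (upper_of_surj hc π hπ) (by
      intro z hz hz'
      rw [← comm_of_surj π hπ] at hz'
      obtain ⟨y, hy, rfl⟩ := hz'
      obtain ⟨s, hs⟩ := schur a.2.2 (T := a.1 y) (fun g => by
        have := congrArg (fun u : a.1.toHomUnits.range => (u.1 : Matrix (Fin d) (Fin d) ℂ))
          (Subgroup.mem_center_iff.1 hz (π g))
        exact this.symm)
      refine Subtype.ext (Units.ext ?_)
      rw [← map_pow, hval, map_pow, hs, smul_pow, one_pow, ha y hy s hs, one_smul]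
      rfl) (π x) (comm_of_surj π hπ ▸ Subgroup.mem_map_of_mem π hx)
    rw [← hval, map_pow, pow_mul, h2]
    rfl
  have h2 : ∀ g ∈ (commutator Γ ⊔ N m) ⊓ N m0, a.1 g = 1 := by
    intro g hg
    have h3 : powSub (commutator Γ) (p ^ (e * c)) ⊔ N m ≤ a.1.toHomUnits.ker := by
      refine sup_le ((Subgroup.closure_le _).2 ?_) fun g hg => Units.ext (hm g hg)
      rintro _ ⟨x, hx, rfl⟩
      exact Units.ext (h1 x hx)
    exact congrArg Units.val (h3 (hm0 m (le_max_left _ _) hg))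
  have hN0 := T.normal m0
  have h3 : ∀ g ∈ N m0, ∃ s : ℂ, a.1 g = s • (1 : Matrix (Fin d) (Fin d) ℂ) := by
    intro g hg
    refine schur a.2.2 fun x => ?_
    have h4 : a.1 ⁅g, x⁆ = 1 := h2 _ ⟨Subgroup.mem_sup_left
      (Subgroup.commutator_mem_commutator (Subgroup.mem_top _) (Subgroup.mem_top _)), by
        rw [commutatorElement_def, mul_assoc, mul_assoc, ← mul_assoc x]
        exact (N m0).mul_mem hg (hN0.conj_mem _ ((N m0).inv_mem hg) x)⟩
    have h5 : g * x = ⁅g, x⁆ * (x * g) := by rw [commutatorElement_def]; group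
    rw [← map_mul, h5, map_mul, h4, one_mul, map_mul]
  let i0 : Fin d := ⟨0, Nat.pos_of_ne_zero a.2.2.1⟩
  have h4 : ∀ g ∈ N m0, a.1 g = a.1 g i0 i0 • (1 : Matrix (Fin d) (Fin d) ℂ) := by
    intro g hg
    obtain ⟨s, hs⟩ := h3 g hg
    rw [hs]
    simp
  let l0 : N m0 →* ℂ :=
    { toFun := fun g => a.1 g i0 i0
      map_one' := by simp
      map_mul' := fun g h => by
        rw [Subgroup.coe_mul, map_mul, h4 g g.2]
        simp }
  have := T.normal m
  have := T.fin m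
  have : (commutator Γ ⊔ N m).FiniteIndex := Subgroup.finiteIndex_of_le le_sup_right
  obtain ⟨χ, hχ1, hχ2⟩ := exists_ext (commutator Γ ⊔ N m) le_sup_left (N m0).subtype
    l0.toHomUnits (fun b hb => Units.ext (by
      change a.1 b i0 i0 = 1
      rw [h2 b ⟨hb, b.2⟩]
      simp))
  have h5 : ∀ g ∈ N m0, tw χ⁻¹ a.1 g = 1 := by
    intro g hg
    change ((χ⁻¹ g : ℂˣ) : ℂ) • a.1 g = 1
    have h6 : (χ g : ℂ) = a.1 g i0 i0 := congrArg Units.val (hχ2 ⟨g, hg⟩)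
    rw [h4 g hg, ← h6, smul_smul]
    simp
  refine ⟨⟨tw χ⁻¹ a.1, T.cont _ h5, a.2.2.tw _⟩, (twist_iff.2 ?_).symm, h5⟩
  refine ⟨χ⁻¹, 1, T.cont _ (m := m) fun g hg => ?_, fun g => by simp [tw]⟩
  simp [hχ1 g (Subgroup.mem_sup_right hg)]

end Pool.Agent.MP_4f1c5b_al.H1
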