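import Pool.Agent.MP_4f1c5b_al.H1.Tower

/-!
MODULE Mat: groups of unitriangular matrices over a local ring form a tower.
-/

namespace Pool.Agent.MP_4f1c5b_al.H1

open IsLocalRing

section Filtration

variable {R : Type} [CommRing R] {n : ℕ}

/-- Matrices supported on the superdiagonals of order at least `j`. -/
def mt_J (R : Type) [CommRing R] (n j : ℕ) : Submodule R (Matrix (Fin n) (Fin n) R) where
  carrier := {x | ∀ a b : Fin n, (b : ℕ) < a + j → x a b = 0}
  add_mem' := fun {x y} hx hy a b h => by simp [hx a b h, hy a b h]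
  zero_mem' := fun a b _ => rfl
  smul_mem' := fun c x hx a b h => by simp [hx a b h]

theorem mt_mem_J {j : ℕ} {x : Matrix (Fin n) (Fin n) R} :
    x ∈ mt_J R n j ↔ ∀ a b : Fin n, (b : ℕ) < a + j → x a b = 0 := Iff.rfl

theorem mt_J_mul {i j k : ℕ} {x y : Matrix (Fin n) (Fin n) R} (hx : x ∈ mt_J R n i)
    (hy : y ∈ mt_J R n j) (hk : k ≤ i + j) : x * y ∈ mt_J R n k := by
  intro a b h
  rw [Matrix.mul_apply]
  refine Finset.sum_eq_zero fun c _ => ?_
  by_cases hc : (c : ℕ) < a + i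
  · rw [hx a c hc, zero_mul]
  · rw [hy c b (by omega), mul_zero]

theorem mt_J_mono {i j : ℕ} {x : Matrix (Fin n) (Fin n) R} (hx : x ∈ mt_J R n i) (h : j ≤ i) :
    x ∈ mt_J R n j := fun a b hab => hx a b (by omega)

theorem mt_J_top {j : ℕ} {x : Matrix (Fin n) (Fin n) R} (hx : x ∈ mt_J R n j) (h : n ≤ j) :
    x = 0 := by
  ext a b
  exact hx a b (by have := b.2; omega)

theorem mt_one_mem : (1 : Matrix (Fin n) (Fin n) R) ∈ mt_J R n 0 := by
  intro a b h
  exact Matrix.one_apply_ne (fun e => by subst e; omega)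

theorem mt_J_zero {j : ℕ} {x : Matrix (Fin n) (Fin n) R} (hx : x - 1 ∈ mt_J R n j) :
    x ∈ mt_J R n 0 := by
  have := (mt_J R n 0).add_mem (mt_J_mono hx (Nat.zero_le _)) mt_one_mem
  simpa using this

theorem mt_uni_iff {x : Matrix (Fin n) (Fin n) R} :
    x - 1 ∈ mt_J R n 1 ↔ (∀ i, x i i = 1) ∧ ∀ i j, j < i → x i j = 0 := by
  constructor
  · intro h
    refine ⟨fun i => ?_, fun i j hij => mt_J_zero h i j (by simpa using hij)⟩
    have := h i i (by omega)
    simpa [sub_eq_zero] using this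
  · rintro ⟨h1, h2⟩ a b h
    rcases eq_or_ne a b with rfl | hab
    · simp [h1]
    · have : b < a := by
        have : (a : ℕ) ≠ b := fun e => hab (Fin.ext e)
        exact Fin.lt_def.mpr (by omega)
      simp [h2 a b this, Matrix.one_apply_ne hab]

theorem mt_uni_mul {j : ℕ} {x y : Matrix (Fin n) (Fin n) R} (hx : x - 1 ∈ mt_J R n j)
    (hy : y - 1 ∈ mt_J R n j) : x * y - 1 ∈ mt_J R n j := by
  have e : x * y - 1 = (x - 1) * y + (y - 1) := by noncomm_ring
  rw [e]
  exact (mt_J R n j).add_mem (mt_J_mul hx (mt_J_zero hy) (by omega)) hy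

theorem mt_uni_pow {j : ℕ} {x : Matrix (Fin n) (Fin n) R} (hx : x - 1 ∈ mt_J R n j) (k : ℕ) :
    x ^ k - 1 ∈ mt_J R n j := by
  induction k with
  | zero => simp
  | succ k ih => rw [pow_succ]; exact mt_uni_mul ih hx

/-- The first-order behaviour of the power map. -/
theorem mt_pow_sub {j : ℕ} {x y : Matrix (Fin n) (Fin n) R} (hx : x - 1 ∈ mt_J R n 1)
    (hy : y - 1 ∈ mt_J R n 1) (h : x - y ∈ mt_J R n j) (k : ℕ) :
    x ^ k - y ^ k - k • (x - y) ∈ mt_J R n (j + 1) := by
  induction k with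
  | zero => simp
  | succ k ih =>
    have h1 : x ^ k - y ^ k ∈ mt_J R n j := by
      have := (mt_J R n j).add_mem (mt_J_mono ih (Nat.le_succ j)) (nsmul_mem h k)
      simpa using this
    have e : x ^ (k + 1) - y ^ (k + 1) - (k + 1) • (x - y) =
        (x ^ k - y ^ k - k • (x - y)) + (x ^ k - 1) * (x - y) + (x ^ k - y ^ k) * (y - 1) := by
      rw [pow_succ, pow_succ, succ_nsmul]
      noncomm_ring
    rw [e]
    exact (mt_J R n _).add_mem ((mt_J R n _).add_mem ih
      (mt_J_mul (mt_uni_pow hx k) h (by omega))) (mt_J_mul h1 hy le_rfl)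

/-- Uniqueness of roots. -/
theorem mt_root [IsDomain R] [CharZero R] {x y : Matrix (Fin n) (Fin n) R}
    (hx : x - 1 ∈ mt_J R n 1) (hy : y - 1 ∈ mt_J R n 1) {k : ℕ} (hk : k ≠ 0)
    (h : x ^ k = y ^ k) : x = y := by
  have key : ∀ j, x - y ∈ mt_J R n j := by
    intro j
    induction j with
    | zero => exact (mt_J R n 0).sub_mem (mt_J_zero hx) (mt_J_zero hy)
    | succ j ih =>
      have h1 := mt_pow_sub hx hy ih k
      rw [h, sub_self, zero_sub, neg_mem_iff] at h1
      intro a b hab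
      have h2 := h1 a b hab
      rw [Matrix.smul_apply, nsmul_eq_mul] at h2
      exact (mul_eq_zero.mp h2).resolve_left (Nat.cast_ne_zero.mpr hk)
  exact sub_eq_zero.mp (mt_J_top (key n) le_rfl)

/-- The filtration of the group of invertible upper triangular matrices. -/
def mt_U (R : Type) [CommRing R] (n j : ℕ) : Subgroup (GL (Fin n) R) where
  carrier := {g | g.1 - 1 ∈ mt_J R n j}
  mul_mem' := fun {g h} hg hh => mt_uni_mul hg hh
  one_mem' := by simp
  inv_mem' := fun {g} hg => by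
    have h0 : Matrix.BlockTriangular g.1 id := fun a b h => mt_J_zero hg a b (by simpa using h)
    have := g.invertible
    have h1 := Matrix.blockTriangular_inv_of_blockTriangular h0
    have h2 : (g⁻¹).1 ∈ mt_J R n 0 := by
      rw [Matrix.coe_units_inv]
      exact fun a b h => h1 (by simpa using h)
    have e : (g⁻¹).1 - 1 = -((g⁻¹).1 * (g.1 - 1)) := by
      rw [mul_sub, Units.inv_mul, mul_one, neg_sub]
    change (g⁻¹).1 - 1 ∈ mt_J R n j
    rw [e]
    exact neg_mem (mt_J_mul h2 hg (by omega))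

theorem mt_mem_U {j : ℕ} {g : GL (Fin n) R} : g ∈ mt_U R n j ↔ g.1 - 1 ∈ mt_J R n j := Iff.rfl

theorem mt_U_mono {i j : ℕ} (h : j ≤ i) : mt_U R n i ≤ mt_U R n j :=
  fun _ hg => mt_J_mono hg h

theorem mt_U_top {j : ℕ} {g : GL (Fin n) R} (hg : g ∈ mt_U R n j) (h : n ≤ j) : g = 1 :=
  Units.ext (sub_eq_zero.mp (mt_J_top hg h))

theorem mt_U_comm {i j : ℕ} {g h : GL (Fin n) R} (hg : g ∈ mt_U R n i) (hh : h ∈ mt_U R n j) :
    g * h * g⁻¹ * h⁻¹ ∈ mt_U R n (i + j) := by
  have e : (g * h * g⁻¹ * h⁻¹).1 - 1 =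
      ((g.1 - 1) * (h.1 - 1) - (h.1 - 1) * (g.1 - 1)) * (g⁻¹ * h⁻¹).1 := by
    have e1 : (g.1 - 1) * (h.1 - 1) - (h.1 - 1) * (g.1 - 1) = (g * h).1 - (h * g).1 := by
      simp only [Units.val_mul]; noncomm_ring
    rw [e1, sub_mul, ← Units.val_mul, ← Units.val_mul]
    congr 1
    · rw [mul_assoc (g * h)]
    · rw [show h * g * (g⁻¹ * h⁻¹) = 1 by group]; rfl
  rw [mt_mem_U, e]
  have h0 : (g⁻¹ * h⁻¹).1 ∈ mt_J R n 0 :=
    mt_J_zero (j := 0) ((mt_U R n 0).mul_mem (inv_mem (mt_U_mono (Nat.zero_le _) hg))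
      (inv_mem (mt_U_mono (Nat.zero_le _) hh)))
  exact mt_J_mul ((mt_J R n (i + j)).sub_mem (mt_J_mul hg hh le_rfl)
    (mt_J_mul hh hg (by omega))) h0 le_rfl

theorem mt_U_root [IsDomain R] [CharZero R] {g h : GL (Fin n) R} (hg : g ∈ mt_U R n 1)
    (hh : h ∈ mt_U R n 1) {k : ℕ} (hk : k ≠ 0) (e : g ^ k = h ^ k) : g = h :=
  Units.ext (mt_root hg hh hk (by
    rw [← Units.val_pow_eq_pow_val, ← Units.val_pow_eq_pow_val, e]))

theorem mt_commute_of_pow [IsDomain R] [CharZero R] {g h : GL (Fin n) R} (hg : g ∈ mt_U R n 1)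
    (hh : h ∈ mt_U R n 1) {k : ℕ} (hk : k ≠ 0) (e : g ^ k * h = h * g ^ k) : g * h = h * g := by
  have h1 : h * g * h⁻¹ = g := by
    refine mt_U_root (mul_mem (mul_mem hh hg) (inv_mem hh)) hg hk ?_
    rw [conj_pow, ← e]; group
  calc g * h = h * g * h⁻¹ * h := by rw [h1]
    _ = h * g := by group

theorem mt_U_pow_char {c : ℕ} (hc : (c : R) = 0) {g : GL (Fin n) R} (hg : g ∈ mt_U R n 1)
    (j : ℕ) : g ^ c ^ j ∈ mt_U R n (j + 1) := by
  induction j with
  | zero => simpa using hg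
  | succ j ih =>
    have h1 := mt_pow_sub (x := (g ^ c ^ j).1) (y := 1) (mt_J_mono ih (by omega)) (by simp) ih c
    have h2 : c • ((g ^ c ^ j).1 - 1) = 0 := by
      ext a b
      rw [Matrix.smul_apply, nsmul_eq_mul, hc, zero_mul]; rfl
    rw [h2, sub_zero, one_pow] at h1
    rw [pow_succ, pow_mul, mt_mem_U, Units.val_pow_eq_pow_val]
    exact h1

/-- The `j`-th superdiagonal. -/
def mt_d (R : Type) [CommRing R] (n j : ℕ) :
    Matrix (Fin n) (Fin n) R →+ (Fin n × Fin n → R) where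
  toFun x := fun ab => if (ab.2 : ℕ) = ab.1 + j then x ab.1 ab.2 else 0
  map_zero' := by ext ab; simp
  map_add' x y := by
    ext ab
    by_cases h : (ab.2 : ℕ) = ab.1 + j <;> simp [h]

theorem mt_d_eq_zero {j : ℕ} {x : Matrix (Fin n) (Fin n) R} (hx : x ∈ mt_J R n j) :
    mt_d R n j x = 0 ↔ x ∈ mt_J R n (j + 1) := by
  constructor
  · intro h a b hab
    by_cases e : (b : ℕ) = a + j
    · have := congrFun h (a, b)
      simpa [mt_d, e] using this
    · exact hx a b (by omega)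
  · intro h
    ext ab
    by_cases e : (ab.2 : ℕ) = ab.1 + j
    · simpa [mt_d, e] using h ab.1 ab.2 (by omega)
    · simp [mt_d, e]

/-- The superdiagonal as a homomorphism. -/
def mt_phi (R : Type) [CommRing R] (n j : ℕ) :
    mt_U R n (j + 1) →* Multiplicative (Fin n × Fin n → R) :=
  MonoidHom.mk' (fun g => Multiplicative.ofAdd (mt_d R n (j + 1) (g.1.1 - 1))) (by
    intro g h
    rw [← ofAdd_add]
    congr 1
    have e : (g * h).1.1 - 1 = (g.1.1 - 1) + (h.1.1 - 1) + (g.1.1 - 1) * (h.1.1 - 1) := by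
      simp only [Subgroup.coe_mul, Units.val_mul]; noncomm_ring
    have h1 : (g.1.1 - 1) * (h.1.1 - 1) ∈ mt_J R n (j + 1 + 1) := mt_J_mul g.2 h.2 (by omega)
    rw [e, map_add, map_add, (mt_d_eq_zero (mt_J_mono h1 (by omega))).mpr h1, add_zero])

theorem mt_phi_ker {j : ℕ} (g : mt_U R n (j + 1)) :
    mt_phi R n j g = 1 ↔ g.1 ∈ mt_U R n (j + 1 + 1) := by
  rw [mt_mem_U, ← mt_d_eq_zero g.2]
  rfl

end Filtration

section Count

theorem mt_card_map {G A : Type} [Group G] [Group A] (f : G →* A) (X : Subgroup G) :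
    Nat.card X = Nat.card (X.map f) * Nat.card (f.ker ⊓ X : Subgroup G) := by
  rw [← Subgroup.relIndex_ker, Subgroup.relIndex, mul_comm,
    ← Nat.card_congr (Subgroup.subgroupOfEquivOfLe (inf_le_right : f.ker ⊓ X ≤ X)).toEquiv,
    Subgroup.inf_subgroupOf_right, Subgroup.card_mul_index]

theorem mt_card_filt {G A : Type} [Group G] [Group A] (U V H : Subgroup G) (φ : U →* A)
    (hker : ∀ g : U, φ g = 1 ↔ g.1 ∈ V) (hVU : V ≤ U) :
    Nat.card (H ⊓ U : Subgroup G) =
      Nat.card ((H.subgroupOf U).map φ) * Nat.card (H ⊓ V : Subgroup G) := by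
  have e1 : φ.ker ⊓ H.subgroupOf U = (H ⊓ V).subgroupOf U := by
    ext g
    simp [MonoidHom.mem_ker, hker, Subgroup.mem_subgroupOf, and_comm]
  rw [← Nat.card_congr (Subgroup.subgroupOfEquivOfLe (inf_le_right : H ⊓ U ≤ U)).toEquiv,
    Subgroup.inf_subgroupOf_right, mt_card_map φ, e1,
    Nat.card_congr (Subgroup.subgroupOfEquivOfLe (inf_le_right.trans hVU : H ⊓ V ≤ U)).toEquiv]

theorem mt_step {G A : Type} [Group G] [CommGroup A] [Finite A] (U V H K : Subgroup G)
    (φ : U →* A) (hker : ∀ g : U, φ g = 1 ↔ g.1 ∈ V) (hVU : V ≤ U) (k : ℕ)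
    (hk : ∀ h ∈ H, h ^ k ∈ K) (c C : ℕ) (hc : Nat.card (powMonoidHom k : A →* A).ker ≤ c)
    (ih : Nat.card (H ⊓ V : Subgroup G) ≤ C * Nat.card (K ⊓ V : Subgroup G)) :
    Nat.card (H ⊓ U : Subgroup G) ≤ c * C * Nat.card (K ⊓ U : Subgroup G) := by
  rw [mt_card_filt U V H φ hker hVU, mt_card_filt U V K φ hker hVU,
    mt_card_map (powMonoidHom k : A →* A)]
  have h1 : Nat.card (((H.subgroupOf U).map φ).map (powMonoidHom k : A →* A)) ≤
      Nat.card ((K.subgroupOf U).map φ) := by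
    apply Subgroup.card_le_of_le
    rintro _ ⟨_, ⟨g, hg, rfl⟩, rfl⟩
    exact ⟨g ^ k, hk _ hg, by simp⟩
  have h2 : Nat.card ((powMonoidHom k : A →* A).ker ⊓ (H.subgroupOf U).map φ : Subgroup A) ≤ c :=
    (Subgroup.card_le_of_le inf_le_left).trans hc
  calc _ ≤ Nat.card ((K.subgroupOf U).map φ) * c * (C * Nat.card (K ⊓ V : Subgroup G)) :=
        Nat.mul_le_mul (Nat.mul_le_mul h1 h2) ih
    _ = _ := by ring

theorem mt_ker_pi {R ι : Type} [CommRing R] [Finite R] [Fintype ι] (k : ℕ) :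
    Nat.card (powMonoidHom k : Multiplicative (ι → R) →* Multiplicative (ι → R)).ker ≤
      Nat.card {x : R // (k : R) * x = 0} ^ Fintype.card ι := by
  rw [← Nat.card_eq_fintype_card (α := ι), ← Nat.card_fun]
  refine Nat.card_le_card_of_injective
    (fun x i => (⟨Multiplicative.toAdd x.1 i, ?_⟩ : {x : R // (k : R) * x = 0})) ?_
  · have h : x.1 ^ k = 1 := x.2
    have := congrFun (congrArg Multiplicative.toAdd h) i
    simpa using this
  · intro x y h
    apply Subtype.ext
    apply Multiplicative.toAdd.injective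
    funext i
    exact congrArg Subtype.val (congrFun h i)

theorem mt_relIndex {R : Type} [CommRing R] [Finite R] {n : ℕ} (H K : Subgroup (GL (Fin n) R))
    (hH : H ≤ mt_U R n 1) (hKH : K ≤ H) (k : ℕ) (hk : ∀ h ∈ H, h ^ k ∈ K) (c : ℕ)
    (hc : Nat.card {x : R // (k : R) * x = 0} ≤ c) : K.relIndex H ≤ (c ^ (n * n)) ^ n := by
  have key : ∀ i j, j + i = n → Nat.card (H ⊓ mt_U R n (j + 1) : Subgroup _) ≤
      (c ^ (n * n)) ^ i * Nat.card (K ⊓ mt_U R n (j + 1) : Subgroup _) := by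
    intro i
    induction i with
    | zero =>
      intro j hj
      rw [pow_zero, one_mul]
      apply Subgroup.card_le_of_le
      intro g hg
      rw [mt_U_top hg.2 (by omega)]
      exact one_mem _
    | succ i ih =>
      intro j hj
      rw [pow_succ']
      refine mt_step _ _ H K (mt_phi R n j) mt_phi_ker (mt_U_mono (by omega)) k hk _ _ ?_
        (ih (j + 1) (by omega))
      refine (mt_ker_pi k).trans ?_
      rw [Fintype.card_prod, Fintype.card_fin]
      exact Nat.pow_le_pow_left hc _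
  have h1 := key n 0 (by omega)
  rw [zero_add, inf_eq_left.mpr hH, inf_eq_left.mpr (hKH.trans hH)] at h1
  have h2 := Subgroup.card_mul_index (K.subgroupOf H)
  rw [Nat.card_congr (Subgroup.subgroupOfEquivOfLe hKH).toEquiv] at h2
  rw [← h2, mul_comm] at h1
  exact Nat.le_of_mul_le_mul_right h1 Nat.card_pos

theorem mt_tors {O R : Type} [CommRing O] [CommRing R] [Finite R] (f : O →+* R)
    (hf : Function.Surjective f) (k : ℕ) [Finite (O ⧸ Ideal.span {(k : O)})] :
    Nat.card {x : R // (k : R) * x = 0} ≤ Nat.card (O ⧸ Ideal.span {(k : O)}) := by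
  let μ : R →+ R := AddMonoidHom.mulLeft (k : R)
  have h1 : Nat.card μ.ker * μ.ker.index = Nat.card R := AddSubgroup.card_mul_index _
  have h2 : Nat.card μ.range * μ.range.index = Nat.card R := AddSubgroup.card_mul_index _
  rw [AddSubgroup.index_ker] at h1
  have h3 : Nat.card μ.ker = μ.range.index := by
    rw [← h2, mul_comm] at h1
    exact Nat.eq_of_mul_eq_mul_left Nat.card_pos h1
  have h4 : μ.range = ((Ideal.span {(k : O)}).toAddSubgroup).map f.toAddMonoidHom := by
    ext y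
    constructor
    · rintro ⟨x, rfl⟩
      obtain ⟨z, rfl⟩ := hf x
      exact ⟨k * z, Ideal.mul_mem_right _ _ (Ideal.mem_span_singleton_self _), by simp [μ]⟩
    · rintro ⟨x, hx, rfl⟩
      obtain ⟨z, rfl⟩ := Ideal.mem_span_singleton.mp hx
      exact ⟨f z, by simp [μ]⟩
  have h5 := AddSubgroup.index_map_dvd (Ideal.span {(k : O)}).toAddSubgroup
    (f := f.toAddMonoidHom) hf
  have h6 : (Ideal.span {(k : O)}).toAddSubgroup.index = Nat.card (O ⧸ Ideal.span {(k : O)}) := rfl
  change Nat.card μ.ker ≤ _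
  rw [h3, h4]
  rw [h6] at h5
  exact Nat.le_of_dvd Nat.card_pos h5

end Count

theorem mt_U_map {R R' : Type} [CommRing R] [CommRing R'] {n j : ℕ} (f : R →+* R')
    {g : GL (Fin n) R} (hg : g ∈ mt_U R n j) :
    Matrix.GeneralLinearGroup.map f g ∈ mt_U R' n j := by
  intro a b h
  have := congrArg f (hg a b h)
  rw [Matrix.sub_apply, map_sub, map_zero] at this
  rw [Matrix.sub_apply, Matrix.GeneralLinearGroup.map_apply, ← this]
  congr 1
  by_cases e : a = b <;> simp [Matrix.one_apply, e]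

theorem mt_mem_ker {R : Type} [CommRing R] {n : ℕ} (I : Ideal R) (g : GL (Fin n) R) :
    Matrix.GeneralLinearGroup.map (Ideal.Quotient.mk I) g = 1 ↔
      ∀ a b, g.1 a b - (1 : Matrix (Fin n) (Fin n) R) a b ∈ I := by
  rw [Units.ext_iff, ← Matrix.ext_iff]
  refine forall_congr' fun a => forall_congr' fun b => ?_
  rw [← Ideal.Quotient.eq, Matrix.GeneralLinearGroup.map_apply]
  by_cases e : a = b <;> simp [Matrix.one_apply, e]

theorem mt_tendsto {O : Type} [CommRing O] [TopologicalSpace O] {I : Ideal O} (hO : IsAdic I)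
    (x : ℕ → O) (y : O) (h : ∀ m, x m - y ∈ I ^ m) :
    Filter.Tendsto x Filter.atTop (nhds y) := by
  rw [(hO.hasBasis_nhds y).tendsto_right_iff]
  intro i _
  filter_upwards [Filter.eventually_ge_atTop i] with m hm
  exact ⟨x m - y, Ideal.pow_le_pow_right hm (h m), by simp⟩

/-- A non-abelian group of upper unitriangular matrices over a discrete valuation ring of
characteristic zero with finite residue field of characteristic `p`, with its congruence
subgroups, is a tower. -/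
theorem tower_of_uni {O : Type} [CommRing O] [IsDomain O] [IsDiscreteValuationRing O] [CharZero O]
    [Finite (ResidueField O)] [TopologicalSpace O] (hO : IsAdic (maximalIdeal O)) {n : ℕ}
    (Γ : Subgroup (GL (Fin n) O))
    (hU : ∀ g ∈ Γ, (∀ i, g.1 i i = 1) ∧ ∀ i j, j < i → g.1 i j = 0)
    (hna : ∃ g ∈ Γ, ∃ h ∈ Γ, g * h ≠ h * g) :
    ∃ N : ℕ → Subgroup Γ, Tower Γ (ringChar (ResidueField O)) N := by
  set p := ringChar (ResidueField O) with hp
  set P := maximalIdeal O with hP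
  have hΓ : ∀ g : Γ, g.1 ∈ mt_U O n 1 := fun g => mt_uni_iff.mpr (hU g.1 g.2)
  have hp0 : p ≠ 0 := CharP.ringChar_ne_zero_of_finite _
  have hpP : (p : O) ∈ P := by
    rw [hP, ← residue_eq_zero_iff, map_natCast]
    exact ringChar.Nat.cast_ringChar
  have hfin0 : Finite (O ⧸ P) := (inferInstance : Finite (ResidueField O))
  have hfin : ∀ m, Finite (O ⧸ P ^ m) := fun m =>
    Ideal.finite_quotient_pow (IsNoetherian.noetherian P) m
  let φ : ∀ m : ℕ, Γ →* GL (Fin n) (O ⧸ P ^ m) := fun m =>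
    (Matrix.GeneralLinearGroup.map (Ideal.Quotient.mk (P ^ m))).comp Γ.subtype
  have hmem : ∀ m (g : Γ), g ∈ (φ m).ker ↔
      ∀ a b, g.1.1 a b - (1 : Matrix (Fin n) (Fin n) O) a b ∈ P ^ m := fun m g =>
    mt_mem_ker _ _
  have hφU : ∀ m (g : Γ), φ m g ∈ mt_U _ n 1 := fun m g => mt_U_map _ (hΓ g)
  have htop : IsTopologicalRing O := by
    have h1 := (P.nonarchimedean).toIsTopologicalRing
    rwa [← hO] at h1
  refine ⟨fun m => (φ m).ker, fun m => inferInstance, ?_, ?_, ?_, ?_, ?_, ?_, ?_, ?_⟩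
  · intro i j hij g hg
    rw [hmem] at hg ⊢
    exact fun a b => Ideal.pow_le_pow_right hij (hg a b)
  · intro m
    have := hfin m
    infer_instance
  · intro m
    refine ⟨m * n, fun g => ?_⟩
    rw [MonoidHom.mem_ker, map_pow, pow_mul]
    refine mt_U_top (mt_U_pow_char ?_ (hφU m g) n) (by omega)
    rw [← map_natCast (Ideal.Quotient.mk (P ^ m)), Ideal.Quotient.eq_zero_iff_mem, Nat.cast_pow]
    exact Ideal.pow_mem_pow hpP m
  · rw [Subgroup.isNilpotent_iff_lowerCentralSeries]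
    have key : ∀ j, Γ.lowerCentralSeries j ≤ mt_U O n (j + 1) := by
      intro j
      induction j with
      | zero => exact fun g hg => hΓ ⟨g, hg⟩
      | succ j ih =>
        rw [Subgroup.lowerCentralSeries_succ, Subgroup.commutator_le]
        intro g hg h hh
        exact mt_U_comm (ih hg) (hΓ ⟨h, hh⟩)
    exact ⟨n, eq_bot_iff.mpr fun g hg => mt_U_top (key n hg) (by omega)⟩
  · have key : ∃ z : Γ, z ≠ 1 ∧ z ∈ Subgroup.center Γ ∧ z ∈ commutator Γ := by
      by_contra hcon
      have h1 : ∀ j, ∃ z : Γ, z ≠ 1 ∧ z ∈ commutator Γ ∧ z.1 ∈ mt_U O n j := by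
        intro j
        induction j with
        | zero =>
          obtain ⟨g, hg, h, hh, hne⟩ := hna
          refine ⟨(⟨g, hg⟩ : Γ) * (⟨h, hh⟩ : Γ) * (⟨g, hg⟩ : Γ)⁻¹ * (⟨h, hh⟩ : Γ)⁻¹, ?_,
            Subgroup.commutator_mem_commutator (Subgroup.mem_top _) (Subgroup.mem_top _),
            mt_U_mono (Nat.zero_le _) (hΓ _)⟩
          intro e
          exact hne (congrArg Subtype.val (commutatorElement_eq_one_iff_mul_comm.mp e))
        | succ j ih =>
          obtain ⟨z, hz1, hz2, hz3⟩ := ih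
          have hz4 : z ∉ Subgroup.center Γ := fun h => hcon ⟨z, hz1, h, hz2⟩
          rw [Subgroup.mem_center_iff, not_forall] at hz4
          obtain ⟨g, hg⟩ := hz4
          refine ⟨z * g * z⁻¹ * g⁻¹, fun e => hg (commutatorElement_eq_one_iff_mul_comm.mp e).symm,
            Subgroup.commutator_mem_commutator (Subgroup.mem_top _) (Subgroup.mem_top _), ?_⟩
          exact mt_U_comm hz3 (hΓ g)
      obtain ⟨z, hz1, -, hz3⟩ := h1 n
      exact hz1 (Subtype.ext (mt_U_top hz3 le_rfl))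
    obtain ⟨z, hz1, hz2, hz3⟩ := key
    refine ⟨z, hz2, hz3, fun M => ?_⟩
    by_contra hcon
    rw [not_exists] at hcon
    apply hz1
    apply Subtype.ext
    refine mt_U_root (hΓ z) (one_mem _) (pow_ne_zero M hp0) ?_
    rw [Subgroup.coe_one, one_pow]
    apply Units.ext
    ext a b
    have h1 : (z ^ p ^ M).1.1 a b - (1 : Matrix (Fin n) (Fin n) O) a b ∈ ⨅ m : ℕ, P ^ m :=
      Ideal.mem_iInf.mpr fun m => (hmem m _).mp (not_not.mp (hcon m)) a b
    rw [Ideal.iInf_pow_eq_bot_of_isLocalRing P (maximalIdeal.isMaximal O).ne_top,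
      Ideal.mem_bot, sub_eq_zero] at h1
    exact h1
  · intro e
    have hne : Ideal.span {((p ^ e : ℕ) : O)} ≠ ⊥ := by
      rw [Ne, Ideal.span_singleton_eq_bot]
      exact Nat.cast_ne_zero.mpr (pow_ne_zero e hp0)
    obtain ⟨t, ht⟩ := exists_maximalIdeal_pow_eq_of_principal O
      (IsPrincipalIdealRing.principal _) _ hne
    have hf : Finite (O ⧸ Ideal.span {((p ^ e : ℕ) : O)}) := by rw [ht]; exact hfin t
    refine ⟨(Nat.card (O ⧸ Ideal.span {((p ^ e : ℕ) : O)}) ^ (n * n)) ^ n, fun m => ?_⟩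
    have := hfin m
    rw [← Subgroup.relIndex_map_map]
    refine mt_relIndex _ _ ?_ (Subgroup.map_mono ?_) (p ^ e) ?_ _
      (mt_tors (Ideal.Quotient.mk (P ^ m)) Ideal.Quotient.mk_surjective (p ^ e))
    · rintro _ ⟨g, -, rfl⟩
      exact hφU m g
    · rw [powSub, Subgroup.closure_le]
      rintro _ ⟨x, hx, rfl⟩
      exact pow_mem hx _
    · rintro _ ⟨g, hg, rfl⟩
      exact ⟨g ^ p ^ e, Subgroup.subset_closure ⟨g, hg, rfl⟩, map_pow _ _ _⟩
  · intro m g
    have e : {x : Γ | g⁻¹ * x ∈ (φ m).ker} = ⋂ a, ⋂ b,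
        (fun x : Γ => (g⁻¹ * x).1.1 a b - (1 : Matrix (Fin n) (Fin n) O) a b) ⁻¹'
          ((P ^ m : Ideal O) : Set O) := by
      ext x
      simp only [Set.mem_ofPred_eq, hmem, Set.mem_iInter, Set.mem_preimage, SetLike.mem_coe]
    rw [e]
    refine isOpen_iInter_of_finite fun a => isOpen_iInter_of_finite fun b => ?_
    refine ((isAdic_iff.mp hO).1 m).preimage ?_
    have h1 : Continuous fun x : Γ => (g⁻¹ * x).1.1 :=
      Units.continuous_val.comp (continuous_subtype_val.comp (continuous_const.mul continuous_id))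
    exact (h1.matrix_elem a b).sub continuous_const
  · intro U hUn
    by_contra hcon
    rw [not_exists] at hcon
    have h1 : ∀ m, ∃ g : Γ, g ∈ (φ m).ker ∧ g ∉ U := fun m => Set.not_subset.mp (hcon m)
    choose g hg1 hg2 using h1
    have h2 : ∀ g : ℕ → Γ, (∀ m, g m ∈ (φ m).ker) →
        Filter.Tendsto (fun m => (g m).1.1) Filter.atTop (nhds 1) := by
      intro g hg
      refine tendsto_pi_nhds.mpr fun a => tendsto_pi_nhds.mpr fun b => ?_
      exact mt_tendsto hO _ _ fun m => (hmem m _).mp (hg m) a b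
    have h3 : Filter.Tendsto g Filter.atTop (nhds 1) := by
      rw [tendsto_subtype_rng, Units.isInducing_embedProduct.tendsto_nhds_iff]
      exact (h2 g hg1).prodMk_nhds ((MulOpposite.continuous_op.tendsto _).comp
        (h2 (fun m => (g m)⁻¹) fun m => inv_mem (hg1 m)))
    obtain ⟨m, hm⟩ := (h3.eventually hUn).exists
    exact hg2 m hm

theorem mt_integral {k : Type} [Field k] [NumberField k] {n : ℕ} {x : Matrix (Fin n) (Fin n) k}
    (hx : x - 1 ∈ mt_J k n 1) :
    ∃ m : ℕ, m ≠ 0 ∧ ∃ y : Matrix (Fin n) (Fin n) (NumberField.RingOfIntegers k),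
      y - 1 ∈ mt_J _ n 1 ∧ (algebraMap (NumberField.RingOfIntegers k) k).mapMatrix y = x ^ m := by
  classical
  set f := algebraMap (NumberField.RingOfIntegers k) k with hf
  have hinj : Function.Injective f := NumberField.RingOfIntegers.coe_injective
  have hmap : ∀ (j : ℕ) (y : Matrix (Fin n) (Fin n) (NumberField.RingOfIntegers k)),
      y ∈ mt_J _ n j ↔ f.mapMatrix y ∈ mt_J k n j := by
    intro j y
    refine forall_congr' fun a => forall_congr' fun b => forall_congr' fun _ => ?_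
    exact (map_eq_zero_iff f hinj).symm
  have key : ∀ j, ∃ m : ℕ, m ≠ 0 ∧ ∃ y : Matrix (Fin n) (Fin n) (NumberField.RingOfIntegers k),
      y - 1 ∈ mt_J _ n 1 ∧ x ^ m - f.mapMatrix y ∈ mt_J k n (j + 1) := by
    intro j
    induction j with
    | zero => exact ⟨1, one_ne_zero, 1, by simp, by simpa using hx⟩
    | succ j ih =>
      obtain ⟨m, hm, y, hy, hz⟩ := ih
      obtain ⟨D, hD, hint⟩ := exists_integral_multiples ℤ ℚ (L := k)
        (Finset.univ.image fun ab : Fin n × Fin n => (x ^ m - f.mapMatrix y) ab.1 ab.2)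
      have h1 : ∀ a b, IsIntegral ℤ (D.natAbs • (x ^ m - f.mapMatrix y) a b) := by
        intro a b
        have h2 := hint _ (Finset.mem_image_of_mem _ (Finset.mem_univ (a, b)))
        rcases Int.natAbs_eq D with e | e
        · rw [e, natCast_zsmul] at h2; exact h2
        · rw [e, neg_smul, natCast_zsmul] at h2; simpa using h2.neg
      let w : Matrix (Fin n) (Fin n) (NumberField.RingOfIntegers k) :=
        Matrix.of fun a b => ⟨_, h1 a b⟩
      have hw : f.mapMatrix w = D.natAbs • (x ^ m - f.mapMatrix y) := by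
        ext a b; rfl
      have hwJ : w ∈ mt_J _ n (j + 1) := by
        rw [hmap, hw]; exact nsmul_mem hz _
      have hy' : f.mapMatrix y - 1 ∈ mt_J k n 1 := by
        have := (hmap 1 _).mp hy
        rwa [map_sub, map_one] at this
      refine ⟨m * D.natAbs, mul_ne_zero hm (Int.natAbs_ne_zero.mpr hD), y ^ D.natAbs + w, ?_, ?_⟩
      · rw [add_sub_right_comm]
        exact add_mem (mt_uni_pow hy _) (mt_J_mono hwJ (by omega))
      · rw [map_add, map_pow, hw, pow_mul, ← sub_sub]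
        exact mt_pow_sub (mt_uni_pow hx m) hy' hz _
  obtain ⟨m, hm, y, hy, hz⟩ := key n
  exact ⟨m, hm, y, hy, (sub_eq_zero.mp (mt_J_top hz (by omega))).symm⟩

theorem mt_descend {k : Type} [Field k] [NumberField k] {n : ℕ}
    {S : Set (MvPolynomial (Fin n × Fin n) (NumberField.RingOfIntegers k))}
    (O : Type) [CommRing O] [Algebra (NumberField.RingOfIntegers k) O]
    {g : GL (Fin n) k} (hg : g ∈ pts S k)
    {y : Matrix (Fin n) (Fin n) (NumberField.RingOfIntegers k)} (hy : y - 1 ∈ mt_J _ n 1)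
    (e : (algebraMap (NumberField.RingOfIntegers k) k).mapMatrix y = g.1) :
    ∃ g' ∈ grp S O, g'.1 = (algebraMap (NumberField.RingOfIntegers k) O).mapMatrix y := by
  obtain ⟨h1, h2⟩ := mt_uni_iff.mp hy
  have h3 : ∀ i, (algebraMap (NumberField.RingOfIntegers k) O).mapMatrix y i i = 1 := by
    intro i; simp [h1]
  have h4 : ∀ i j, j < i → (algebraMap (NumberField.RingOfIntegers k) O).mapMatrix y i j = 0 := by
    intro i j h; simp [h2 i j h]
  have hdet : ((algebraMap (NumberField.RingOfIntegers k) O).mapMatrix y).det = 1 := by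
    rw [Matrix.det_of_isUpperTriangular (fun i j h => h4 i j h)]
    exact Finset.prod_eq_one fun i _ => h3 i
  refine ⟨Matrix.GeneralLinearGroup.mk'' _ (by rw [hdet]; exact isUnit_one),
    Subgroup.subset_closure ⟨h3, h4, fun P hP => ?_⟩, rfl⟩
  have h5 := hg.2.2 P hP
  rw [← e] at h5
  have h6 := MvPolynomial.aeval_algebraMap_apply k (fun ij : Fin n × Fin n => y ij.1 ij.2) P
  have h7 : MvPolynomial.aeval (fun ij : Fin n × Fin n => y ij.1 ij.2) P = 0 :=
    (map_eq_zero_iff _ NumberField.RingOfIntegers.coe_injective).mp (h6.symm.trans h5)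
  have h8 := MvPolynomial.aeval_algebraMap_apply O (fun ij : Fin n × Fin n => y ij.1 ij.2) P
  rw [h7, map_zero] at h8
  exact h8

/-- If the `k`-points are non-abelian, so are the `O`-points. -/
theorem nonab_of_field {k : Type} [Field k] [NumberField k] {n : ℕ}
    {S : Set (MvPolynomial (Fin n × Fin n) (NumberField.RingOfIntegers k))} (hS : IsGroup S)
    (hna : ∃ g ∈ grp S k, ∃ h ∈ grp S k, g * h ≠ h * g)
    (O : Type) [CommRing O] [IsDomain O] [CharZero O] [Algebra (NumberField.RingOfIntegers k) O] :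
    ∃ g ∈ grp S O, ∃ h ∈ grp S O, g * h ≠ h * g := by
  obtain ⟨H, hH⟩ := hS k
  have hmem : ∀ g, g ∈ grp S k → g ∈ pts S k := by
    intro g hg
    rw [grp, ← hH, Subgroup.closure_eq] at hg
    rw [← hH]; exact hg
  have hU : ∀ g, g ∈ grp S k → g ∈ mt_U k n 1 := fun g hg =>
    mt_uni_iff.mpr ⟨(hmem g hg).1, (hmem g hg).2.1⟩
  obtain ⟨g, hg, h, hh, hne⟩ := hna
  obtain ⟨m, hm, y, hy, ey⟩ := mt_integral (hU g hg)
  obtain ⟨m', hm', y', hy', ey'⟩ := mt_integral (hU h hh)
  rw [← Units.val_pow_eq_pow_val] at ey ey'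
  obtain ⟨g', hg', eg'⟩ := mt_descend O (hmem _ (pow_mem hg m)) hy ey
  obtain ⟨h', hh', eh'⟩ := mt_descend O (hmem _ (pow_mem hh m')) hy' ey'
  refine ⟨g', hg', h', hh', fun e => hne ?_⟩
  have hinj : Function.Injective (algebraMap (NumberField.RingOfIntegers k) O) := by
    rw [RingHom.injective_iff_ker_eq_bot]
    apply Ideal.eq_bot_of_comap_eq_bot (R := ℤ)
    rw [eq_bot_iff]
    intro z hz
    rw [Ideal.mem_comap, RingHom.mem_ker] at hz
    simpa using hz
  have h1 : y * y' = y' * y := by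
    have h2 := congrArg Units.val e
    rw [Units.val_mul, Units.val_mul, eg', eh', ← map_mul, ← map_mul] at h2
    ext1 a b
    exact hinj (congrFun (congrFun h2 a) b)
  have h3 : g ^ m * h ^ m' = h ^ m' * g ^ m := by
    apply Units.ext
    rw [Units.val_mul, Units.val_mul, ← ey, ← ey', ← map_mul, ← map_mul, h1]
  have h4 := mt_commute_of_pow (hU g hg) (pow_mem (hU h hh) m') hm h3
  exact (mt_commute_of_pow (hU h hh) (hU g hg) hm' h4.symm).symm

end Pool.Agent.MP_4f1c5b_al.H1
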