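import Pool.Agent.MP_4f1c5b_al.H1.Abs
import Pool.Agent.MP_4f1c5b_al.H1.Mat
import Pool.Agent.MP_4f1c5b_al.H1.Dir
import Pool.Agent.MP_4f1c5b_al.H1.Red

/-!
From the local vanishing to a presentation all of whose reductions vanish at zero.
-/

namespace Pool.Agent.MP_4f1c5b_al.H1

open Polynomial AlgebraicGeometry CategoryTheory IsLocalRing Filter

/-- A property of all rings of integers of large residue characteristic. -/
def Large (o : Type) [CommRing o] {r : ℕ} (V : Fin r → Over (Spec (CommRingCat.of o)))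
    (P : ℚ → (Fin r → ℚ) → Prop) : Prop :=
  ∃ N : ℕ, ∀ (O : Type) [CommRing O] [IsDomain O] [IsDiscreteValuationRing O] [CharZero O]
    [Algebra o O] [IsAdicComplete (maximalIdeal O) O] [Finite (ResidueField O)],
      N ≤ ringChar (ResidueField O) →
        P (Nat.card (ResidueField O)) fun i => cnt (V i) (ResidueField O)

lemma char_prime (F : Type) [Field F] [Finite F] : (ringChar F).Prime :=
  CharP.char_is_prime F _

lemma char_le_card (F : Type) [Field F] [Finite F] : ringChar F ≤ Nat.card F := by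
  have := Fintype.ofFinite F
  rw [Nat.card_eq_fintype_card]
  exact Nat.le_of_dvd Fintype.card_pos ((CharP.cast_eq_zero_iff F _ _).1 (by simp))

variable {o : Type} [CommRing o] {r : ℕ} {V : Fin r → Over (Spec (CommRingCat.of o))}

lemma Large.mono {P Q : ℚ → (Fin r → ℚ) → Prop} (h : Large o V P) (hPQ : ∀ q c, P q c → Q q c) :
    Large o V Q := by
  obtain ⟨N, hN⟩ := h
  exact ⟨N, fun O _ _ _ _ _ _ _ h => hPQ _ _ (hN O h)⟩

lemma Large.and {P Q : ℚ → (Fin r → ℚ) → Prop} (h : Large o V P) (h' : Large o V Q) :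
    Large o V fun q c => P q c ∧ Q q c := by
  obtain ⟨N, hN⟩ := h
  obtain ⟨N', hN'⟩ := h'
  exact ⟨max N N', fun O _ _ _ _ _ _ _ h =>
    ⟨hN O ((le_max_left _ _).trans h), hN' O ((le_max_right _ _).trans h)⟩⟩

lemma Large.all {ι : Type} [Finite ι] {P : ι → ℚ → (Fin r → ℚ) → Prop}
    (h : ∀ i, Large o V (P i)) : Large o V fun q c => ∀ i, P i q c := by
  choose N hN using h
  obtain ⟨M, hM⟩ := (Set.finite_range N).bddAbove
  exact ⟨M, fun O _ _ _ _ _ _ _ h i => hN i O ((hM ⟨i, rfl⟩).trans h)⟩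

lemma large_ne {f : ℚ[X]} (hf : f ≠ 0) : Large o V fun q _ => f.eval q ≠ 0 := by
  obtain ⟨M, hM⟩ := (f.rootSet_finite ℚ).bddAbove
  obtain ⟨N, hN⟩ := exists_nat_gt M
  refine ⟨N, fun O _ _ _ _ _ _ _ h h0 => ?_⟩
  have h1 : ((Nat.card (ResidueField O) : ℕ) : ℚ) ≤ M :=
    hM ((mem_rootSet_of_ne hf).2 (by simpa using h0))
  have h2 : (N : ℚ) ≤ (Nat.card (ResidueField O) : ℕ) :=
    Nat.cast_le.2 (h.trans (char_le_card _))
  linarith

/-- Relations between the point counts with coefficients polynomial in `q`. -/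
def Rel (V : Fin r → Over (Spec (CommRingCat.of o))) : Submodule ℚ[X] (Fin r → ℚ[X]) where
  carrier := {α | Large o V fun q c => ∑ i, (α i).eval q * c i = 0}
  add_mem' {a b} ha hb := by
    simp only [Set.mem_ofPred_eq] at ha hb ⊢
    exact (ha.and hb).mono fun q c h => by simp [add_mul, Finset.sum_add_distrib, h.1, h.2]
  zero_mem' := ⟨0, fun O _ _ _ _ _ _ _ _ => by simp⟩
  smul_mem' f α ha := by
    simp only [Set.mem_ofPred_eq] at ha ⊢
    exact ha.mono fun q c h => by simp [mul_assoc, ← Finset.mul_sum, h]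

lemma mem_rel {α : Fin r → ℚ[X]} :
    α ∈ Rel V ↔ Large o V fun q c => ∑ i, (α i).eval q * c i = 0 := Iff.rfl

lemma exists_proj (V : Fin r → Over (Spec (CommRingCat.of o))) :
    ∃ E : (Fin r → ℚ[X]) →ₗ[ℚ[X]] (Fin r → ℚ[X]),
      (∀ α ∈ Rel V, E α = 0) ∧ ∀ α, E α - α ∈ Rel V := by
  have : Module.IsTorsionFree ℚ[X] ((Fin r → ℚ[X]) ⧸ Rel V) := by
    refine Module.IsTorsionFree.of_smul_eq_zero fun f x h => ?_
    obtain ⟨α, rfl⟩ := Submodule.Quotient.mk_surjective _ x
    rw [← Submodule.Quotient.mk_smul, Submodule.Quotient.mk_eq_zero] at h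
    refine or_iff_not_imp_left.2 fun hf => (Submodule.Quotient.mk_eq_zero _).2 ?_
    refine mem_rel.2 ((Large.and (mem_rel.1 h) (large_ne hf)).mono fun q c h => ?_)
    have h1 := h.1
    simp only [Pi.smul_apply, smul_eq_mul, eval_mul, mul_assoc, ← Finset.mul_sum] at h1
    exact (mul_eq_zero.1 h1).resolve_left h.2
  obtain ⟨s, hs⟩ := Module.projective_lifting_property (Rel V).mkQ LinearMap.id
    (Rel V).mkQ_surjective
  refine ⟨s.comp (Rel V).mkQ, fun α hα => ?_, fun α => ?_⟩
  · simp [(Submodule.Quotient.mk_eq_zero _).2 hα]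
  · rw [← Submodule.Quotient.eq]
    exact LinearMap.congr_fun hs _

lemma ev_eq {E : Type} [CommRing E] [Algebra ℚ E] (A : ℚ[X][X]) (x y : E) :
    ev A x y = eval₂RingHom (aeval x : ℚ[X] →ₐ[ℚ] E).toRingHom y A := rfl

lemma ev_map (A : ℚ[X][X]) (q : ℕ) (y : ℝ) :
    ev A (q : ℝ) y = aeval y (A.map (evalRingHom (q : ℚ))) := by
  rw [aeval_def, eval₂_map, ev]
  congr 1
  refine RingHom.ext fun f => ?_
  have : (q : ℝ) = algebraMap ℚ ℝ q := by simp
  rw [this]
  exact aeval_algebraMap_apply_eq_algebraMap_eval _ _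

lemma dvd_iff_taylor {R : Type} [CommRing R] (A : R[X]) (t : ℕ) :
    (X - 1) ^ t ∣ A ↔ ∀ j < t, (taylor 1 A).coeff j = 0 := by
  rw [← X_pow_dvd_iff]
  constructor
  · rintro ⟨B, rfl⟩
    exact ⟨taylor 1 B, by simp [taylor_mul, taylor_pow]⟩
  · rintro ⟨B, hB⟩
    refine ⟨taylor (-1) B, ?_⟩
    have := congrArg (taylor (-1 : R)) hB
    simpa [taylor_taylor, taylor_mul, taylor_pow, sub_eq_add_neg] using this

lemma ev_ne {B : ℚ[X]} (hB : B ≠ 0) {q : ℕ} (hq : 2 ≤ q) :
    ∀ᶠ s : ℝ in atTop, aeval ((q : ℝ) ^ (-s)) B ≠ 0 := by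
  have h1 : (1 : ℝ) < q := by exact_mod_cast hq
  have hinj : Function.Injective fun s : ℝ => (q : ℝ) ^ (-s) := fun a b h =>
    neg_injective ((Real.strictMono_rpow_of_base_gt_one h1).injective h)
  obtain ⟨M, hM⟩ := ((B.rootSet_finite ℝ).preimage hinj.injOn).bddAbove
  filter_upwards [eventually_gt_atTop M] with s hs h
  exact absurd (hM ((mem_rootSet_of_ne hB).2 h)) (not_le.2 hs)

lemma cc_ev (f : ℚ[X]) (y : PowerSeries (RatFunc ℚ)) :
    PowerSeries.constantCoeff (ev (C f) (1 + PowerSeries.X) y) =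
      algebraMap ℚ (RatFunc ℚ) (f.eval 1) := by
  rw [ev, eval₂_C]
  induction f using Polynomial.induction_on' with
  | add p q hp hq => simp only [map_add, eval_add, hp, hq]
  | monomial n a =>
    simp only [AlgHom.toRingHom_eq_coe, RingHom.coe_coe, aeval_monomial, map_mul, map_pow,
      map_add, map_one, PowerSeries.constantCoeff_X, add_zero, one_pow, mul_one, eval_monomial]
    rw [PowerSeries.algebraMap_apply, PowerSeries.constantCoeff_C]

theorem main {k : Type} [Field k] [NumberField k] {n : ℕ}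
    {S : Set (MvPolynomial (Fin n × Fin n) (NumberField.RingOfIntegers k))} (hS : IsGroup S)
    (hna : ∃ g ∈ grp S k, ∃ h ∈ grp S k, g * h ≠ h * g) {r : ℕ}
    {V : Fin r → Over (Spec (CommRingCat.of (NumberField.RingOfIntegers k)))}
    {A B : Fin r → ℚ[X][X]} {ρ : Fin r → RatFunc ℚ} (h : Presents S V A B ρ) :
    ∃ (A' B' : Fin r → ℚ[X][X]) (ρ' : Fin r → RatFunc ℚ), Presents S V A' B' ρ' ∧
      (∀ i, VanishAtZero (ρ' i)) ∧ ∀ c : Fin r → ℤ,
        (∀ α ∈ Rel V, ∑ i, (α i).eval 1 * (c i : ℚ) = 0) → ∑ i, c i • ρ' i = ∑ i, c i • ρ i := by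
  classical
  obtain ⟨hV, hAB, N, hN⟩ := h
  set D := ∏ i, B i with hD
  have hDd : Denef D := Submonoid.prod_mem _ fun i _ => (hAB i).1
  obtain ⟨t, ht, hred⟩ := hDd.exists_pow
  let A1 : Fin r → ℚ[X][X] := fun i => A i * ∏ j ∈ Finset.univ.erase i, B j
  have hBD : ∀ i, B i * ∏ j ∈ Finset.univ.erase i, B j = D := fun i =>
    Finset.mul_prod_erase _ _ (Finset.mem_univ i)
  have hq : ∀ (F : Type) [Field F] [Finite F], 2 ≤ Nat.card F := fun F _ _ =>
    (char_prime F).two_le.trans (char_le_card F)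
  -- the formula over the common denominator
  have hF : ∀ (O : Type) [CommRing O] [IsDomain O] [IsDiscreteValuationRing O] [CharZero O]
      [Algebra (NumberField.RingOfIntegers k) O] [IsAdicComplete (maximalIdeal O) O]
      [Finite (ResidueField O)] [TopologicalSpace O], IsAdic (maximalIdeal O) →
      N ≤ ringChar (ResidueField O) → ∀ᶠ s : ℝ in atTop,
        HasSum (fun d : ℕ => (rt (grp S O) d : ℝ) * (d : ℝ) ^ (-s))
          (aeval ((Nat.card (ResidueField O) : ℝ) ^ (-s))
            (∑ i, C (cnt (V i) (ResidueField O) : ℚ) *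
              (A1 i).map (evalRingHom (Nat.card (ResidueField O) : ℚ))) /
            aeval ((Nat.card (ResidueField O) : ℝ) ^ (-s))
              (D.map (evalRingHom (Nat.card (ResidueField O) : ℚ)))) := by
    intro O _ _ _ _ _ _ _ _ hO hp
    have h2 := hq (ResidueField O)
    filter_upwards [hN O hO hp, ev_ne (hDd.map_ne (q := Nat.card (ResidueField O))
      (by exact_mod_cast h2)) h2] with s hs hs'
    rw [map_sum, Finset.sum_div]
    refine Eq.mp (congrArg (fun x => HasSum _ x) (Finset.sum_congr rfl fun i _ => ?_)) hs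
    rw [← ev_map] at hs'
    rw [map_mul, ← ev_map, ← ev_map, ← hBD i]
    rw [← hBD i, ev_eq, map_mul] at hs'
    simp only [A1, ev_eq, map_mul]
    have := left_ne_zero_of_mul hs'
    have := right_ne_zero_of_mul hs'
    field_simp
    simp [mul_comm]
  have hrel : ∀ j < t + 1, (fun i => (taylor 1 (A1 i)).coeff j) ∈ Rel V := by
    intro j hj
    refine ⟨N, fun O _ _ _ _ _ _ _ hp => ?_⟩
    let _ : TopologicalSpace O := (maximalIdeal O).adicTopology
    have hO : IsAdic (maximalIdeal O) := rfl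
    have h2 := hq (ResidueField O)
    obtain ⟨Nn, T⟩ := tower_of_uni hO (grp S O) (fun g hg => by
      obtain ⟨H, hH⟩ := hS O
      rw [grp, ← hH, Subgroup.closure_eq, ← SetLike.mem_coe, hH] at hg
      exact ⟨hg.1, hg.2.1⟩) (nonab_of_field hS hna O)
    have h3 := dvd_of_dirichlet (char_prime _) h2 _ (Tower.rt_zero _)
      (T.dvd_sum (char_prime _)) _ _ (hDd.map_ne (by exact_mod_cast h2)) t
      (by simpa using Polynomial.map_dvd (evalRingHom (Nat.card (ResidueField O) : ℚ)) ht)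
      (hF O hO hp)
    have h4 := (dvd_iff_taylor _ _).1 h3 j hj
    rw [← h4, map_sum, finsetSum_coeff]
    refine Finset.sum_congr rfl fun i _ => ?_
    have h5 := map_taylor (A1 i) 1 (evalRingHom (Nat.card (ResidueField O) : ℚ))
    rw [map_one] at h5
    rw [taylor_mul, taylor_C, coeff_C_mul, ← h5, coeff_map, mul_comm]
    rfl
  obtain ⟨E, hE0, hE1⟩ := exists_proj V
  let e : Fin r → Fin r → ℚ[X] := fun i j => E (Pi.single j 1) i
  have he : ∀ (α : Fin r → ℚ[X]) i, E α i = ∑ j, e i j * α j := by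
    intro α i
    conv_lhs => rw [pi_eq_sum_univ' α]
    simp [e, mul_comm]
  let A' : Fin r → ℚ[X][X] := fun i => ∑ j, C (e i j) * A1 j
  choose w hw hw' using fun i => (hAB i).2
  have hr : ∀ i, IsRed (A' i) D (PowerSeries.constantCoeff
      (∑ j, ev (C (e i j)) (1 + PowerSeries.X) yser * w j)) := by
    intro i
    refine ⟨_, ?_, rfl⟩
    simp only [A', A1, ev_eq, map_sum, map_mul, Finset.sum_mul]
    refine Finset.sum_congr rfl fun j _ => ?_
    rw [← hBD j, map_mul, ← ev_eq (A j), hw j, ev_eq]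
    ring
  refine ⟨A', fun _ => D, _, ⟨hV, fun i => ⟨hDd, hr i⟩, ?_⟩, fun i => hred _ _ ?_ (hr i),
    fun c hc => ?_⟩
  · obtain ⟨N', hN'⟩ := Large.all (V := V) fun j => mem_rel.1 (hE1 (Pi.single j 1))
    refine ⟨max N N', fun O _ _ _ _ _ _ _ _ hO hp => ?_⟩
    filter_upwards [hF O hO ((le_max_left _ _).trans hp)] with s hs
    have h1 := hN' O ((le_max_right _ _).trans hp)
    simp only [← mul_div_assoc, ← Finset.sum_div, ev_map]
    have h2 : (∑ i, C (cnt (V i) (ResidueField O) : ℚ) *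
        (A1 i).map (evalRingHom (Nat.card (ResidueField O) : ℚ))) =
        ∑ i, C (cnt (V i) (ResidueField O) : ℚ) *
          (A' i).map (evalRingHom (Nat.card (ResidueField O) : ℚ)) := by
      simp only [A', Polynomial.map_sum, Polynomial.map_mul, map_C, Finset.mul_sum, ← mul_assoc,
        ← C_mul]
      rw [Finset.sum_comm]
      refine Finset.sum_congr rfl fun j _ => ?_
      rw [← Finset.sum_mul, ← map_sum]
      congr 2
      have h3 := h1 j
      simp only [Pi.sub_apply, eval_sub, sub_mul, Finset.sum_sub_distrib] at h3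
      rw [sub_eq_zero] at h3
      have h4 : ∑ i, eval (Nat.card (ResidueField O) : ℚ) ((Pi.single j 1 : Fin r → ℚ[X]) i) *
          (cnt (V i) (ResidueField O) : ℚ) = cnt (V j) (ResidueField O) := by
        rw [Finset.sum_eq_single j] <;> simp +contextual
      rw [← h4, ← h3]
      exact Finset.sum_congr rfl fun i _ => mul_comm _ _
    rw [h2, map_sum] at hs
    simpa using hs
  · refine (dvd_iff_taylor _ _).2 fun j hj => ?_
    have h1 := congrFun (hE0 _ (hrel j hj)) i
    rw [he] at h1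
    simpa [A', taylor_mul] using h1
  · simp only [map_sum, map_mul, hw', cc_ev, Finset.smul_sum]
    rw [Finset.sum_comm]
    refine Finset.sum_congr rfl fun j _ => ?_
    have h3 := hc _ (hE1 (Pi.single j 1))
    simp only [Pi.sub_apply, eval_sub, sub_mul, Finset.sum_sub_distrib] at h3
    rw [sub_eq_zero] at h3
    have h4 : ∑ i, eval 1 ((Pi.single j 1 : Fin r → ℚ[X]) i) * (c i : ℚ) = c j := by
      rw [Finset.sum_eq_single j] <;> simp +contextual
    rw [h4] at h3
    have h5 : ((c j : ℤ) : RatFunc ℚ) = algebraMap ℚ (RatFunc ℚ) (c j) := by simp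
    simp only [zsmul_eq_mul, ← mul_assoc]
    rw [← Finset.sum_mul, h5, ← h3, map_sum]
    congr 1
    refine Finset.sum_congr rfl fun i _ => ?_
    rw [map_mul, mul_comm]
    simp [e]

end Pool.Agent.MP_4f1c5b_al.H1
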