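import Pool.Agent.MP_4f1c5b_al.H1.Defs

/-!
The abstract setting: a nilpotent group with a basis of open normal subgroups of `p`-power index.
-/

namespace Pool.Agent.MP_4f1c5b_al.H1

/-- The subgroup generated by the `k`-th powers of elements of `H`. -/
def powSub {Γ : Type} [Group Γ] (H : Subgroup Γ) (k : ℕ) : Subgroup Γ :=
  Subgroup.closure {y | ∃ x ∈ H, y = x ^ k}

/-- A nilpotent pro-`p` type group of finite rank with infinite derived subgroup. -/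
structure Tower (Γ : Type) [Group Γ] [TopologicalSpace Γ] (p : ℕ) (N : ℕ → Subgroup Γ) : Prop where
  normal : ∀ m, (N m).Normal
  anti : Antitone N
  fin : ∀ m, (N m).FiniteIndex
  pw : ∀ m, ∃ E : ℕ, ∀ g : Γ, g ^ p ^ E ∈ N m
  nil : Group.IsNilpotent Γ
  cen : ∃ z : Γ, z ∈ Subgroup.center Γ ∧ z ∈ commutator Γ ∧ ∀ M : ℕ, ∃ m, z ^ p ^ M ∉ N m
  rank : ∀ e : ℕ, ∃ C : ℕ, ∀ m,
    (powSub (commutator Γ) (p ^ e) ⊔ N m).relIndex (commutator Γ ⊔ N m) ≤ C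
  isOpen : ∀ m (g : Γ), IsOpen {x : Γ | g⁻¹ * x ∈ N m}
  basis : ∀ U ∈ nhds (1 : Γ), ∃ m, (N m : Set Γ) ⊆ U

end Pool.Agent.MP_4f1c5b_al.H1
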